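import Mathlib

/-!
# Mean dimension, crossed products by `ℤ`, quasitraces, radius of comparison: definitions
-/

set_option autoImplicit false

namespace Pool.Agent.H252.MD

open Filter Topology
open scoped ENNReal NNReal

noncomputable section

/-! ## Crossed products -/

/-- `A`, with the unital `*`-homomorphism `ι : C(X) → A` and the unitary `u`, is the crossed product
`C*(ℤ, X, h)`: it is generated by `ι (C(X))` and `u`, the relation `u ι(f) u* = ι(f ∘ h⁻¹)` holds,
and it is universal for pairs with this relation. -/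
structure IsCrossedProduct {X : Type} [TopologicalSpace X] [CompactSpace X] (h : X ≃ₜ X)
    {A : Type} [CStarAlgebra A] (ι : C(X, ℂ) →⋆ₐ[ℂ] A) (u : A) : Prop where
  unitary : u ∈ unitary A
  cov : ∀ f : C(X, ℂ), u * ι f * star u = ι (f.comp (h.symm : C(X, X)))
  generated : ∀ S : StarSubalgebra ℂ A, IsClosed (S : Set A) → (∀ f, ι f ∈ S) → u ∈ S → S = ⊤
  universal : ∀ (B : Type) [CStarAlgebra B] (φ : C(X, ℂ) →⋆ₐ[ℂ] B) (w : B), w ∈ _root_.unitary B →
    (∀ f : C(X, ℂ), w * φ f * star w = φ (f.comp (h.symm : C(X, X)))) →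
    ∃ Φ : A →⋆ₐ[ℂ] B, (∀ f, Φ (ι f) = φ f) ∧ Φ u = w

/-! ## Mean dimension -/

section mdim

variable {X : Type} [TopologicalSpace X]

/-- `U` is a finite open cover of `X`. -/
def IsCov (U : Set (Set X)) : Prop := U.Finite ∧ (∀ s ∈ U, IsOpen s) ∧ ⋃₀ U = Set.univ

/-- The order of `V` is at most `d`: no point lies in more than `d + 1` members of `V`. -/
def OrdLE (V : Set (Set X)) (d : ℕ) : Prop := ∀ x, {s | s ∈ V ∧ x ∈ s}.ncard ≤ d + 1

/-- `D(U)`: the least order of a finite open cover which refines `U`. -/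
def covDim (U : Set (Set X)) : ℕ :=
  sInf {d | ∃ V : Set (Set X), IsCov V ∧ (∀ s ∈ V, ∃ t ∈ U, s ⊆ t) ∧ OrdLE V d}

/-- The cover `U ∨ h⁻¹ U ∨ ... ∨ h⁻⁽ⁿ⁻¹⁾ U`. -/
def joinIter (h : X ≃ₜ X) (U : Set (Set X)) (n : ℕ) : Set (Set X) :=
  {W | ∃ s : Fin n → Set X, (∀ i, s i ∈ U) ∧ W = ⋂ i : Fin n, (h^[(i : ℕ)]) ⁻¹' s i}

/-- Mean dimension: the supremum over the finite open covers `U` of
`lim D(U ∨ h⁻¹ U ∨ ... ∨ h⁻⁽ⁿ⁻¹⁾ U) / n` (the limit exists by subadditivity). -/
def mdim (h : X ≃ₜ X) : ℝ≥0∞ :=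
  ⨆ (U : Set (Set X)) (_ : IsCov U),
    liminf (fun n : ℕ => (covDim (joinIter h U n) : ℝ≥0∞) / (n : ℝ≥0∞)) atTop

/-- `k` is a minimal homeomorphism: every orbit is dense. -/
def IsMinimal (k : X ≃ₜ X) : Prop := ∀ x, Dense (Set.range fun n : ℤ => (k ^ n) x)

end mdim

/-! ## Quasitraces and comparison -/

/-- The axioms of a (1-)quasitrace on a unital *-algebra: `0 ≤ τ(x* x) = τ(x x*)`,
`τ(a + i b) = τ(a) + i τ(b)` for self-adjoint `a`, `b`, and `τ` is linear on commutative
*-subalgebras (two elements lie in a common commutative *-subalgebra if and only if they are normal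
and each commutes with the other and its adjoint). -/
structure IsQuasitrace {R : Type} [Ring R] [StarRing R] [Algebra ℂ R] (τ : R → ℂ) : Prop where
  nonneg : ∀ x : R, 0 ≤ (τ (star x * x)).re ∧ (τ (star x * x)).im = 0
  comm : ∀ x : R, τ (star x * x) = τ (x * star x)
  add_I : ∀ a b : R, IsSelfAdjoint a → IsSelfAdjoint b →
    τ (a + Complex.I • b) = τ a + Complex.I * τ b
  linear : ∀ (c : ℂ) (x y : R), IsStarNormal x → IsStarNormal y → Commute x y →
    Commute x (star y) → τ (c • x + y) = c * τ x + τ y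

section

variable {A : Type} [CStarAlgebra A]

/-- The upper left corner embedding `M_n(A) → M_{n+1}(A)`. -/
def corner {n : ℕ} (a : Matrix (Fin n) (Fin n) A) : Matrix (Fin (n + 1)) (Fin (n + 1)) A :=
  fun i j => if h : (i : ℕ) < n ∧ (j : ℕ) < n then a ⟨i, h.1⟩ ⟨j, h.2⟩ else 0

/-- A normalised 2-quasitrace on `A`, given together with its extension to all matrix algebras over
`A` (a 2-quasitrace has a unique such extension). -/
structure QT (A : Type) [CStarAlgebra A] where
  val : (n : ℕ) → Matrix (Fin n) (Fin n) A → ℂ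
  isQuasitrace : ∀ n, IsQuasitrace (val n)
  map_corner : ∀ (n : ℕ) (a : Matrix (Fin n) (Fin n) A), val (n + 1) (corner a) = val n a
  map_one : val 1 1 = 1

/-- Positive matrices over the C*-algebra `A`. -/
def IsPos {n : ℕ} (a : Matrix (Fin n) (Fin n) A) : Prop := ∃ x, a = star x * x

/-- The limit `d_σ(a) = lim σ(a^{1/m})` exists and equals `d`; here `a^{1/m}` is the positive
`m`-th root of the positive matrix `a`. -/
def HasDim {n : ℕ} (σ : Matrix (Fin n) (Fin n) A → ℂ) (a : Matrix (Fin n) (Fin n) A) (d : ℝ) :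
    Prop :=
  ∃ r : ℕ → Matrix (Fin n) (Fin n) A, (∀ m, IsPos (r m) ∧ r m ^ (m + 1) = a) ∧
    Tendsto (fun m => (σ (r m)).re) atTop (𝓝 d)

/-- Cuntz subequivalence `a ≾ b` of positive matrices over `A`: `a` is the limit of elements
`v b v*` (convergence of matrices over a C*-algebra is convergence of all entries). -/
def CuntzLE {n : ℕ} (a b : Matrix (Fin n) (Fin n) A) : Prop :=
  ∀ ε : ℝ, 0 < ε → ∃ v : Matrix (Fin n) (Fin n) A, ∀ i j, ‖(v * b * star v - a) i j‖ < ε

/-- `d_τ(a) + r < d_τ(b)` for all normalised 2-quasitraces `τ` on `A`. -/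
def RankLT {n : ℕ} (r : ℝ) (a b : Matrix (Fin n) (Fin n) A) : Prop :=
  ∀ τ : QT A, ∃ d e : ℝ, HasDim (τ.val n) a d ∧ HasDim (τ.val n) b e ∧ d + r < e

end

/-- The radius of comparison of `A`: the infimum of all `r ≥ 0` such that `a ≾ b` for all positive
matrices `a`, `b` over `A` with `d_τ(a) + r < d_τ(b)` for all normalised 2-quasitraces `τ`. -/
def rc (A : Type) [CStarAlgebra A] : ℝ≥0∞ :=
  sInf {s : ℝ≥0∞ | ∃ r : ℝ≥0, s = r ∧ ∀ (n : ℕ) (a b : Matrix (Fin n) (Fin n) A),
    IsPos a → IsPos b → RankLT (r : ℝ) a b → CuntzLE a b}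

end

end Pool.Agent.H252.MD
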