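import Pool.Graph.R_pool_sql_team_seeded_620a6dc7.H107_ZS.CStubs3
import Pool.Agent.H252.MD.Defs

/-!
# Radius of comparison and mean dimension: the interface

Target: `C*(ℤ, X, h)` has radius of comparison at most `mdim(h) / 2` for every system `(X, h)` with
an infinite minimal factor (MP_c00d13_an, Q2, hence Q1).

The group is `Zm = Multiplicative ℤ`, acting on `X`; `zt i • x` is `hⁱ(x)`.

`S_X` is a statement, its proof `s_X : S_X` is delivered in `Pool/Agent/H<n>/...`.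
-/

set_option autoImplicit false

namespace Pool.Agent.H252.MD

open Filter Topology Matrix
open Pool.Agent.H107ZS Pool.Agent.H327R4.Pure
open scoped CStarAlgebra ComplexOrder

noncomputable section

/-- the group `ℤ`, written multiplicatively -/
abbrev Zm : Type := Multiplicative ℤ

/-- the element `i` of the group -/
def zt (i : ℤ) : Zm := Multiplicative.ofAdd i

/-! ## Part 1: dynamics -/

section dyn

variable {X : Type} [TopologicalSpace X] [MulAction Zm X]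

/-- A marker function: values in `[0,1]`; the points where it is nonzero on an orbit are more than
`N` apart; in every window of length `L` it takes the value `1`. -/
structure Mark (φ : C(X, ℝ)) (N L : ℕ) : Prop where
  nonneg : ∀ x, 0 ≤ φ x
  le_one : ∀ x, φ x ≤ 1
  sep : ∀ x, ∀ i : ℕ, 1 ≤ i → i ≤ N → φ x ≠ 0 → φ (zt i • x) = 0
  ret : ∀ x, ∃ i : ℕ, 1 ≤ i ∧ i ≤ L ∧ φ (zt i • x) = 1

variable (X) in
/-- marker functions with arbitrarily large gaps exist -/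
def HasMarks : Prop := ∀ N : ℕ, ∃ (φ : C(X, ℝ)) (L : ℕ), Mark φ N L

/-- `ω` marks the starting points of blocks of length `n` which cover all orbits, almost disjointly:
every point is in a block, and in long windows there are at most `(1+η) L / n` points with
`ω ≠ 0`. -/
structure Omega (ω : C(X, ℝ)) (n : ℕ) (η : ℝ) : Prop where
  nonneg : ∀ x, 0 ≤ ω x
  le_one : ∀ x, ω x ≤ 1
  cover : ∀ x, ∃ j : ℕ, j < n ∧ ω (zt (-(j : ℤ)) • x) = 1
  dens : ∃ L₁ : ℕ, ∀ L : ℕ, L₁ ≤ L → ∀ x,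
    (((Finset.range L).filter fun i : ℕ => ω (zt i • x) ≠ 0).card : ℝ) ≤ (1 + η) * L / n

/-- A finite family of functions with values in `[0,1]` such that in long windows of the orbits at
most `D L` of the values `q j (zt i • x)`, `0 ≤ i < L`, are nonzero. -/
structure QFam {J : ℕ} (q : Fin J → C(X, ℝ)) (D : ℝ) : Prop where
  nonneg : ∀ j x, 0 ≤ q j x
  le_one : ∀ j x, q j x ≤ 1
  dens : ∃ L₀ : ℕ, ∀ L : ℕ, L₀ ≤ L → ∀ x,
    (((Finset.univ ×ˢ Finset.range L : Finset (Fin J × ℕ)).filter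
      fun p => q p.1 (zt (p.2 : ℤ) • x) ≠ 0).card : ℝ) ≤ D * L

/-- the values of the `q j` on the window `[lo, hi]` of the orbits of `x` and `y` differ by at most
`ρ` -/
def Near {J : ℕ} (q : Fin J → C(X, ℝ)) (lo hi : ℤ) (x y : X) (ρ : ℝ) : Prop :=
  ∀ j, ∀ i : ℤ, lo ≤ i → i ≤ hi → |q j (zt i • x) - q j (zt i • y)| ≤ ρ

variable (X) in
/-- mean dimension smaller than `D`, in the form in which it is used: for every finite open cover
`U` there are arbitrarily large `n` such that `U ∨ h⁻¹ U ∨ ... ∨ h⁻⁽ⁿ⁻¹⁾ U` has a finite open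
refinement for which no point is in more than `D n + 1` members. -/
def MdimLT (D : ℝ) : Prop := ∀ U : Set (Set X), IsCov U → ∀ M : ℕ, ∃ n : ℕ, M ≤ n ∧
  ∃ V : Set (Set X), IsCov V ∧
    (∀ s ∈ V, ∃ t : Fin n → Set X, (∀ i, t i ∈ U) ∧ ∀ x ∈ s, ∀ i : Fin n, zt ((i : ℕ) : ℤ) • x ∈ t i) ∧
    ∀ x, ({s | s ∈ V ∧ x ∈ s}.ncard : ℝ) ≤ D * n + 1

variable (X) in
/-- finite families of functions can be approximated by functions which depend in a Lipschitz way on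
the values of a family `q` of small density on a window of the orbit -/
def LocApp (D : ℝ) : Prop := ∀ (m : ℕ) (f : Fin m → C(X, ℂ)) (ε : ℝ), 0 < ε →
  ∃ (J : ℕ) (q : Fin J → C(X, ℝ)), QFam q D ∧ ∃ (n₀ : ℕ) (C : ℝ), 0 ≤ C ∧
    ∃ g : Fin m → C(X, ℂ), (∀ k x, ‖g k x - f k x‖ ≤ ε) ∧
      ∀ k x y ρ, 0 ≤ ρ → Near q (-(n₀ : ℤ)) n₀ x y ρ → ‖g k x - g k y‖ ≤ C * ρ

end dyn

/-- **MARK**: an extension of an infinite minimal system has marker functions.

PROOF. Some (every) point `y₀ ∈ Y` has infinite orbit (otherwise the orbit is finite, hence closed,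
hence equal to `Y`). So `zt i • y₀ ≠ y₀` for `1 ≤ i ≤ N`, and there is an open set `U ∋ y₀` with
`U ∩ (zt i)⁻¹ U = ∅` for `1 ≤ i ≤ N`. Urysohn (or a product of distance functions) gives
`φ₀ : Y → [0,1]` continuous with `φ₀ = 0` off `U` and `φ₀ = 1` on a neighbourhood `V` of `y₀`. By
minimality and compactness `Y = ⋃_{|i| ≤ M} (zt i)⁻¹ V`, so (apply this to `zt (M+1) • y`) every
window `[1, 2M+1]` of an orbit meets `V`. Put `φ = φ₀ ∘ g`, `L = 2M+1`. -/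
def S_MARK : Prop := ∀ (X Y : Type) [TopologicalSpace X] [MulAction Zm X] [MetricSpace Y]
  [CompactSpace Y] [Infinite Y] [MulAction Zm Y] [ContinuousConstSMul Zm Y] (g : C(X, Y)),
  (∀ (z : Zm) (x : X), g (z • x) = z • g x) → (∀ y : Y, Dense (Set.range fun z : Zm => z • y)) →
  HasMarks X

/-- **OMEGA**: block markers.

PROOF. Let `φ` be a marker function for `N` (large, e.g. `N ≥ 8 n² / η + 8 n`) and `L₀` its return
time. Cuts of (the orbit of) `x` are the integers `c` with `φ(zt c x) ≠ 0`; two cuts are more than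
`N` apart. For `j : ℕ` let `s_j(x) = φ(zt (-j) x) / (j+1)` (the strength, at time `0`, of the cut at
`-j`), `M(x) = sup_j s_j(x) = max_{j ≤ L₀} s_j(x) ≥ m₀ := 1/(L₀+1)` (there is a cut of weight `1` in
`[-L₀, 0]`; for `j > L₀`, `s_j ≤ 1/(j+1) < m₀`). Let `J` with `J + 1 ≥ 2/m₀`, and
`ζ_j(x) = max 0 (1 - (1 - s_j(x)/M(x))/δ₀)` for `j ≤ J` (continuous); `δ₀ ≤ 1/2` small, depending on
`J`. The cut `c` is ALIVE at time `m ≥ c` if `s_{m-c}(zt m x) > (1-δ₀) M(zt m x)` (so `m - c ≤ J`),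
i.e. `ζ_{m-c}(zt m x) > 0`. Put
`ω(x) = max_{0≤i<n} max {ζ_{j+i}(zt i x) | n ∣ j, j + i ≤ J}`.
*cover:* for `x` take `J' ≤ L₀` with `ζ_{J'}(x) = 1` (a maximal one), `i = J' mod n`; then
`ω(zt (-i) x) ≥ ζ_{(J'-i)+i}(zt i (zt (-i) x)) = 1`.
*dens:* for cuts `c' < c` (so `D = c - c' > N ≥ 1`) the ratio `s_c/s_{c'}` at time `m` is
`(t_c/(A))·((A+D)/t_{c'})` with `A = m - c + 1`; passing from `m` to `m+1` multiplies it by
`1 - D/((A+1)(A+D)) ≤ 1 - 1/(J+2)²` (`A ≤ J+1`), and it is decreasing in `m`.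
(A) If `c' < c` are both alive at `m` then `c` is not alive at any later time: the ratio at `m` is
`< 1/(1-δ₀)`, at later times `≤ (1 - 1/(J+2)²)/(1-δ₀) ≤ 1-δ₀` for `δ₀` small.
(B) If only `c` is alive at `m`, only `c'` is alive at `m+1` and `c' ≠ c`: either `c' = m+1`, or
`c' < c` and `c` is never alive after `m` (the ratio `s_c/s_{c'}` is `≤ 1-δ₀` from time `m+1` on), the
case `c < c' ≤ m` being impossible (`s_{c'} ≥ s_c` at `m+1`, hence at `m`, so `c'` is alive at `m`).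
Call `m` bad if two cuts are alive at `m`, or if the sole alive cuts at `m`, `m+1` are different. So
every bad `m` is the last time at which some cut is alive, or `m+1` is a cut; hence the number of bad
`m` in `[0, L)` is at most twice the number of cuts in `[-J, L]`, `≤ 2((L+J+1)/(N+1) + 1)`.
If `ω(zt m x) ≠ 0` and no time in `[m, m+n)` is bad, then the same sole cut `c` is alive at the times
`m, ..., m+n`, and `n ∣ m - c`; therefore two such `m` differ by at least `n` (if `m < m' < m+n`, both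
are `≡ c mod n`). So the number of `m ∈ [0,L)` with `ω(zt m x) ≠ 0` is at most
`L/n + 1 + n · #(bad times in [0, L+n)) ≤ L/n + 1 + 2n((L+n+J+1)/(N+1) + 1) ≤ (1+η)L/n` for large
`L` (as `2n/(N+1) ≤ η/(2n)`). -/
def S_OMEGA : Prop := ∀ (X : Type) [TopologicalSpace X] [MulAction Zm X] [ContinuousConstSMul Zm X],
  HasMarks X → ∀ (n : ℕ) (η : ℝ), 1 ≤ n → 0 < η → ∃ ω : C(X, ℝ), Omega ω n η

/-- **MD**: local approximation from mean dimension.

PROOF. Let `U` be a finite open cover such that every `f k` oscillates by at most `ε` on the members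
(compactness). Let `η > 0` be small and `n ≥ 1/η` with `V` as in `MdimLT D₀` (drop the empty set from
`V`), `ω` as in `HO` for `n`, `η`. Take a partition of unity `(p_s)_{s ∈ V}` subordinate to `V`
(`X` is compact Hausdorff, hence normal), `x_s ∈ s`, and `q_s = ω · p_s`. Put
`g k x = (∑_{j<n} ∑_s q_s(zt (-j) x) f_k(zt j x_s)) / (∑_{j<n} ∑_s q_s(zt (-j) x))`;
the denominator is `∑_{j<n} ω(zt (-j) x) ≥ 1`. If `q_s(zt (-j) x) ≠ 0` then `zt (-j) x ∈ s`, so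
`x = zt j (zt (-j) x)` and `zt j x_s` are in the same member of `U` and
`|f_k(x) - f_k(zt j x_s)| ≤ ε`; hence `|g k x - f k x| ≤ ε` (a convex combination).
Lipschitz: numerator and denominator are sums of values `q_s(zt (-j) x)`, `j < n`, with bounded
coefficients, the denominator is `≥ 1` (`n₀ = n`).
Density: at `x` at most `D₀ n + 1` of the `p_s(x)` are nonzero, so for long windows at most
`(1+η) (L/n) (D₀ n + 1) ≤ (1+η)(D₀ + η) L ≤ D L` of the values are nonzero (`η` small; note that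
`D₀ ≥ 0` if `X` is nonempty, as `D₀ n + 1 ≥ 1`; the case of empty `X` is trivial). -/
def S_MD : Prop := ∀ (X : Type) [TopologicalSpace X] [CompactSpace X] [T2Space X] [MulAction Zm X]
  [ContinuousConstSMul Zm X], (∀ (n : ℕ) (η : ℝ), 1 ≤ n → 0 < η → ∃ ω : C(X, ℝ), Omega ω n η) →
  ∀ D₀ D : ℝ, D₀ < D → MdimLT X D₀ → LocApp X D

/-- **COV**: counting. `p i x` are finitely many numbers in `[0,1]` attached to `x ∈ X`, of which at
most `D` are nonzero.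

PROOF. Let `M = ⌈1/ρ⌉`. Attach to `x` the pattern `i ↦ ⌊M · p i x⌋ ∈ {0..M}`; the number of patterns
(with at most `D` nonzero entries) is at most `2^|I| (M+1)^D ≤ 2^|I| 3^D (1/ρ)^D` (as
`M + 1 ≤ 1/ρ + 2 ≤ 3/ρ`). Choose one point of `X₀` for every pattern which occurs in `X₀`; points with
the same pattern have `|p i x - p i y| ≤ 1/M ≤ ρ`. -/
def S_COV : Prop := ∀ (X I : Type) [Fintype I] (p : I → X → ℝ) (D : ℕ) (X₀ : Set X),
  (∀ i x, 0 ≤ p i x ∧ p i x ≤ 1) → (∀ x ∈ X₀, {i | p i x ≠ 0}.ncard ≤ D) →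
  ∃ C : ℝ, 0 < C ∧ ∀ ρ : ℝ, 0 < ρ → ρ ≤ 1 → ∃ F : Finset X, (F : Set X) ⊆ X₀ ∧
    (F.card : ℝ) ≤ C * (1 / ρ) ^ D ∧ ∀ x ∈ X₀, ∃ y ∈ F, ∀ i, |p i x - p i y| ≤ ρ

/-! ## Part 2: matrices -/

/-- **GEN**: a generic constant matrix `c` makes `β (w c + z) α` injective on the range of `α`,
simultaneously for all members of a family which is of box dimension at most `D` and for which the
rank of (a bounded part of) `β` exceeds the rank of `α` by more than `D/2`.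

PROOF. It suffices to show that the set of bad `c` in the ball `‖c‖ ≤ R` is a null set (for Lebesgue
measure on `N → N → ℂ`, sup norm, say). By countable additivity it is enough to treat the subfamily
`w i ≥ θ` (centres of the cover can be moved into the subfamily at the cost of replacing `ρ` by `2ρ`)
and the set of `c` for which there are `i` and `ξ`, `‖ξ‖ ≤ 1`, with `‖α_i ξ‖ ≥ θ` and
`β_i (w_i c + z_i) α_i ξ = 0`. Fix `ρ`. For `j ∈ F` the set `{α_j ξ : ‖ξ‖ ≤ 1}` is contained in a ball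
of the complex vector space `range α_j` of dimension `m_j = rank α_j`, so it is covered by
`≤ C₁ ρ^(-2 m_j)` balls of radius `ρ` with centres `η` in `range α_j`, `C₁` independent of `j`, `ρ`
(volume argument in the real normed space `range α_j`; compare
`Besicovitch.card_le_of_separated`). If `c` is bad with `i`, `ξ`, choose `j ∈ F` near `i` and a
centre `η` near `α_j ξ`: then `‖η - α_i ξ‖ ≤ C₂ ρ`, so `‖η‖ ≥ θ/2` and
`‖β_j (w_j c + z_j) η‖ ≤ C₃ ρ`, hence `‖P (w_j c + z_j) η‖ ≤ C₄ ρ` for the projection `P = Q β_j` of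
rank `≥ m_j + Δ`. Correcting `c` by the rank one matrix
`y η* / (w_j ‖η‖²)`, `y = P (w_j c + z_j) η` (`P y = y`), we see that `c` is at distance `≤ C₅ ρ` from
the real affine subspace `{c | P (w_j c + z_j) η = 0}` of codimension `2 rank P` (it is a translate of
the kernel of the surjective map `c ↦ P c η` onto `range P`). The intersection of the
`C₅ρ`-neighbourhood of such an affine subspace with the ball of radius `R` is covered by
`C₆ ρ^(-(2|N|² - 2 rank P))` balls of radius `C₇ ρ`, so has measure `≤ C₈ ρ^(2 rank P)`. Altogether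
the measure of the bad set is
`≤ ∑_{j ∈ F} C₁ ρ^(-2 m_j) C₈ ρ^(2 m_j + 2Δ) ≤ C C₁ C₈ ρ^(2Δ - D) → 0`. -/
def S_GEN : Prop := ∀ (N : Type) [Fintype N] [DecidableEq N] (I : Type) (α β z : I → Matrix N N ℂ)
  (w : I → ℝ) (D Δ : ℕ) (C : ℝ), D < 2 * Δ → 0 < C →
  (∀ i, 0 < w i ∧ w i ≤ C) →
  (∀ i k l, ‖α i k l‖ ≤ C ∧ ‖β i k l‖ ≤ C ∧ ‖z i k l‖ ≤ C) →
  (∀ ρ : ℝ, 0 < ρ → ρ ≤ 1 → ∃ F : Finset I, (F.card : ℝ) ≤ C * (1 / ρ) ^ D ∧
    ∀ i, ∃ j ∈ F, |w i - w j| ≤ ρ ∧ ∀ k l, ‖α i k l - α j k l‖ ≤ ρ ∧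
      ‖β i k l - β j k l‖ ≤ ρ ∧ ‖z i k l - z j k l‖ ≤ ρ) →
  (∀ i, ∃ Q : Matrix N N ℂ, (∀ k l, ‖Q k l‖ ≤ C) ∧ IsStarProjection (Q * β i) ∧
    (α i).rank + Δ ≤ (Q * β i).rank) →
  ∃ c : Matrix N N ℂ, ∀ i, ∀ ξ : N → ℂ,
    β i *ᵥ ((((w i : ℝ) : ℂ) • c + z i) *ᵥ (α i *ᵥ ξ)) = 0 → α i *ᵥ ξ = 0

/-- `Y` is the positive part of `X` -/
structure IsPP {N : Type} [Fintype N] (Y X : Matrix N N ℂ) : Prop where
  pos : Y.PosSemidef
  neg : (Y - X).PosSemidef
  mul : Y * (Y - X) = 0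

/-- **PP**: three facts on positive parts of matrices.

PROOF. (a) `Y` is the nearest point to `X` in the cone of positive semidefinite matrices for the
Hilbert-Schmidt inner product: `tr((X-Y)(Y'-Y)) = -tr((Y-X) Y') + tr((Y-X) Y) ≤ 0` since
`tr(S T) ≥ 0` for positive semidefinite `S`, `T` and `(Y-X) Y = 0`. Adding the same with the roles
exchanged gives `‖Y-Y'‖² ≤ tr((X-X')(Y-Y')) ≤ ‖X-X'‖ ‖Y-Y'‖`.
(b) `range Y ∩ ker p = 0`: if `ξ = Y η`, `p ξ = 0`, then `0 ≤ ⟨(C p - X) ξ, ξ⟩ = -⟨X ξ, ξ⟩` and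
`⟨X Y η, Y η⟩ = ⟨Y Y η, Y η⟩` (because `X Y = Y Y`, adjoint of `Y (Y - X) = 0`), `= ⟨Y ξ, ξ⟩ ≥ 0`; so
`⟨Yξ, ξ⟩ = 0`, `Y ξ = 0`, `Y Y η = 0`, `Y η = 0`. So `rank Y ≤ |N| - dim ker p = rank p`.
(c) Diagonalise `X` (spectral theorem), let `F` be the sum of the eigenspaces for the eigenvalues
`≥ δ - κ`. If `dim F < rank q`, there is `0 ≠ ξ ∈ range q ∩ F^⊥`, and `⟨Xξ,ξ⟩ < (δ-κ)‖ξ‖²`,
`⟨Xξ,ξ⟩ ≥ δ ⟨qξ,ξ⟩ - κ‖ξ‖² = (δ-κ)‖ξ‖²`, a contradiction. `Y = (X-κ)₊` acts on the eigenspace of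
`λ ≥ δ - κ` as `λ - κ ≥ δ - 2κ ≥ δ/2` (uniqueness of positive parts); `Q` is `(λ-κ)⁻¹` on these
eigenspaces and `0` on the others; `‖Q‖ ≤ 2/δ`. -/
def S_PP : Prop := ∀ (N : Type) [Fintype N] [DecidableEq N],
  (∀ X Y X' Y' : Matrix N N ℂ, IsPP Y X → IsPP Y' X' →
    ∑ k, ∑ l, ‖Y k l - Y' k l‖ ^ 2 ≤ ∑ k, ∑ l, ‖X k l - X' k l‖ ^ 2) ∧
  (∀ (X Y p : Matrix N N ℂ) (C : ℝ), IsPP Y X → IsStarProjection p →
    ((C : ℂ) • p - X).PosSemidef → Y.rank ≤ p.rank) ∧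
  (∀ (X Y q : Matrix N N ℂ) (δ κ : ℝ), 0 < κ → 4 * κ ≤ δ → X.IsHermitian → IsStarProjection q →
    (X + (κ : ℂ) • (1 : Matrix N N ℂ) - (δ : ℂ) • q).PosSemidef →
    IsPP Y (X - (κ : ℂ) • (1 : Matrix N N ℂ)) →
    ∃ Q : Matrix N N ℂ, (∀ k l, ‖Q k l‖ ≤ 2 / δ) ∧ IsStarProjection (Q * Y) ∧
      q.rank ≤ (Q * Y).rank)

/-- **CPT**: compactness: from injectivity on the range to a uniform estimate.

PROOF. Let `κ` be the minimum of `‖β^{1/2} v α ξ‖² = ⟨β vαξ, vαξ⟩` over the compact set of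
`(x, ξ)`, `x ∈ K`, `‖ξ‖ = 1`, `‖α ξ‖² ≥ θ`; it is positive since `⟨βη,η⟩ = 0` implies `β η = 0` for
positive semidefinite `β`. Let `M` be the maximum of `‖α(x)‖²` and `C = M/κ` (if the set is empty
`C = 0`). For a unit vector `ξ` either `‖αξ‖² ≤ θ` or `‖αξ‖² ≤ M ≤ C ⟨β vαξ, vαξ⟩`. -/
def S_CPT : Prop := ∀ (X N : Type) [TopologicalSpace X] [Fintype N] [DecidableEq N]
  (α β v : X → Matrix N N ℂ) (K : Set X), IsCompact K → Continuous α → Continuous β →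
  Continuous v → (∀ x ∈ K, (α x).IsHermitian) → (∀ x ∈ K, (β x).PosSemidef) →
  (∀ x ∈ K, ∀ ξ : N → ℂ, β x *ᵥ (v x *ᵥ (α x *ᵥ ξ)) = 0 → α x *ᵥ ξ = 0) →
  ∀ θ : ℝ, 0 < θ → ∃ C : ℝ, 0 ≤ C ∧ ∀ x ∈ K,
    ((θ : ℂ) • (1 : Matrix N N ℂ) + (C : ℂ) • (α x * (v x)ᴴ * β x * v x * α x) -
      α x * α x).PosSemidef

/-! ## Part 3: the choice of the constants -/

section choice

variable {X : Type} [TopologicalSpace X] [MulAction Zm X]

/-- the weight of the block `[0, L)`: cuts at `0` and at `L`, no cut in between -/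
def psi (φ : C(X, ℝ)) (L : ℕ) (x : X) : ℝ :=
  φ x * (∏ i ∈ Finset.Ico 1 L, (1 - φ (zt (i : ℤ) • x))) * φ (zt (L : ℤ) • x)

/-- the constant matrix `c L` placed on all blocks `[s, s + L) ⊆ [0, Λ)`, with weights -/
def vW {n : ℕ} (φ : C(X, ℝ)) (c : (L : ℕ) → Matrix (Fin n × Fin L) (Fin n × Fin L) ℂ) (x : X)
    (Λ : ℕ) : Matrix (Fin n × Fin Λ) (Fin n × Fin Λ) ℂ :=
  fun p q => ∑ L ∈ Finset.Icc 1 Λ, ∑ s ∈ Finset.range (Λ + 1 - L),
    if h : (s ≤ (p.2 : ℕ) ∧ (p.2 : ℕ) < s + L) ∧ (s ≤ (q.2 : ℕ) ∧ (q.2 : ℕ) < s + L) then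
      (psi φ L (zt (s : ℤ) • x) : ℂ) *
        c L (p.1, ⟨(p.2 : ℕ) - s, by omega⟩) (q.1, ⟨(q.2 : ℕ) - s, by omega⟩)
    else 0

/-- the matrices `A Λ x` decouple at the points where `φ = 1` -/
def Dec {n : ℕ} (φ : C(X, ℝ))
    (A : (Λ : ℕ) → X → Matrix (Fin n × Fin Λ) (Fin n × Fin Λ) ℂ) : Prop :=
  ∀ (i j : ℕ) (x : X), 0 < i → 0 < j → φ x = 1 → φ (zt (i : ℤ) • x) = 1 →
    φ (zt ((i + j : ℕ) : ℤ) • x) = 1 →
    (∀ k l (s t : Fin i), A (i + j) x (k, Fin.castAdd j s) (l, Fin.castAdd j t) =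
      A i x (k, s) (l, t)) ∧
    (∀ k l (s t : Fin j), A (i + j) x (k, Fin.natAdd i s) (l, Fin.natAdd i t) =
      A j (zt (i : ℤ) • x) (k, s) (l, t)) ∧
    (∀ k l (s : Fin i) (t : Fin j), A (i + j) x (k, Fin.castAdd j s) (l, Fin.natAdd i t) = 0 ∧
      A (i + j) x (k, Fin.natAdd i t) (l, Fin.castAdd j s) = 0)

/-- the generic data for blocks of length `Λ`: boundedness, box dimension `≤ D`, rank gap `≥ Δ` with
`D < 2 Δ` -/
def GenData {n : ℕ} (φ : C(X, ℝ))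
    (A B : (Λ : ℕ) → X → Matrix (Fin n × Fin Λ) (Fin n × Fin Λ) ℂ) (Λ : ℕ) : Prop :=
  ∃ (D Δ : ℕ) (C : ℝ), D < 2 * Δ ∧ 0 < C ∧
    (∀ x, φ x = 1 → φ (zt (Λ : ℤ) • x) = 1 → ∀ k l, ‖A Λ x k l‖ ≤ C ∧ ‖B Λ x k l‖ ≤ C) ∧
    (∀ ρ : ℝ, 0 < ρ → ρ ≤ 1 → ∃ F : Finset X, (∀ y ∈ F, φ y = 1 ∧ φ (zt (Λ : ℤ) • y) = 1) ∧
      (F.card : ℝ) ≤ C * (1 / ρ) ^ D ∧ ∀ x, φ x = 1 → φ (zt (Λ : ℤ) • x) = 1 → ∃ y ∈ F,
        (∀ i : ℕ, i ≤ Λ → |φ (zt (i : ℤ) • x) - φ (zt (i : ℤ) • y)| ≤ ρ) ∧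
        ∀ k l, ‖A Λ x k l - A Λ y k l‖ ≤ ρ ∧ ‖B Λ x k l - B Λ y k l‖ ≤ ρ) ∧
    (∀ x, φ x = 1 → φ (zt (Λ : ℤ) • x) = 1 → ∃ Q : Matrix (Fin n × Fin Λ) (Fin n × Fin Λ) ℂ,
      (∀ k l, ‖Q k l‖ ≤ C) ∧ IsStarProjection (Q * B Λ x) ∧
      (A Λ x).rank + Δ ≤ (Q * B Λ x).rank)

end choice

/-- **IND**: the inductive choice of the constant matrices.

PROOF. Induction on `m ≤ Lmax`: there is `c` such that the conclusion holds for all `Λ ≤ m`; the
conclusion for `Λ` only involves the `c L` with `L ≤ Λ`, so in the step `m → m+1 = Λ` we only have to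
choose `c Λ` (`Function.update`). For `x` with `φ x = 1 = φ(zt Λ x)` write
`vW φ c x Λ = w(x) c_Λ + z(x)`, `w(x) = psi φ Λ x = ∏_{0<i<Λ} (1 - φ(zt i x))`, `z(x)` involving only
the `c L`, `L < Λ`. If `w(x) = 0` then `φ(zt i x) = 1` for some `0 < i < Λ`; all blocks
`[s, s+L)` with `s < i < s+L` have weight `0`, so `vW φ c x Λ` is block diagonal with blocks
`vW φ c x i`, `vW φ c (zt i x) (Λ-i)` and so are `A`, `B` (`Dec`): the claim follows from the claim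
for `i` at `x` and for `Λ - i` at `zt i x`. For all the `x` with `w(x) > 0` at once use `S_GEN` for the
index set `I = {x // φ x = 1 ∧ φ(zt Λ x) = 1 ∧ 0 < w(x)}`, `α = A Λ`, `β = B Λ`, `w`, `z`
(`w` and `z` are Lipschitz functions of the numbers `φ(zt i x)`, `0 ≤ i ≤ Λ`; adapt the constant `C`;
the centres of the covers have to be moved into `I`, which costs a factor `2` in `ρ`). -/
def S_IND : Prop := S_GEN → ∀ (X : Type) [TopologicalSpace X] [MulAction Zm X] (n : ℕ)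
  (φ : C(X, ℝ)) (Lmax : ℕ) (A B : (Λ : ℕ) → X → Matrix (Fin n × Fin Λ) (Fin n × Fin Λ) ℂ),
  (∀ x, 0 ≤ φ x ∧ φ x ≤ 1) → Dec φ A → Dec φ B →
  (∀ Λ : ℕ, 1 ≤ Λ → Λ ≤ Lmax → GenData φ A B Λ) →
  ∃ c : (L : ℕ) → Matrix (Fin n × Fin L) (Fin n × Fin L) ℂ,
    ∀ Λ : ℕ, 1 ≤ Λ → Λ ≤ Lmax → ∀ x, φ x = 1 → φ (zt (Λ : ℤ) • x) = 1 →
      ∀ ξ : Fin n × Fin Λ → ℂ,
        B Λ x *ᵥ (vW φ c x Λ *ᵥ (A Λ x *ᵥ ξ)) = 0 → A Λ x *ᵥ ξ = 0

/-! ## Part 4: matrices over the crossed product -/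

section cross

variable {X : Type} [TopologicalSpace X] [CompactSpace X] [MulAction Zm X]
  [ContinuousConstSMul Zm X] {B : Type} [CStarAlgebra B] {n : ℕ}

/-- the compression of `b` at `x` to the window `[0, Λ)` -/
def W (u : Zm →* unitary B) (E : Fin n → Fin n → B →L[ℂ] C(X, ℂ)) (b : B) (Λ : ℕ) (x : X) :
    Matrix (Fin n × Fin Λ) (Fin n × Fin Λ) ℂ :=
  fun p q => E p.1 q.1
    (star (u (zt ((p.2 : ℕ) : ℤ)) : B) * b * (u (zt ((q.2 : ℕ) : ℤ)) : B)) x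

/-- at `x`, the element `b` has no matrix entries between `[0, ∞)` and `(-∞, 0)` -/
def SplitAt (u : Zm →* unitary B) (E : Fin n → Fin n → B →L[ℂ] C(X, ℂ)) (b : B) (x : X) : Prop :=
  ∀ i j : ℤ, 0 ≤ i → j < 0 → ∀ k l,
    E k l (star (u (zt i) : B) * b * (u (zt j) : B)) x = 0 ∧
    E k l (star (u (zt j) : B) * b * (u (zt i) : B)) x = 0

/-- the entries of `b` depend in a Lipschitz way on the values of the `q j` on the window
`[-n₀, n₀]` -/
def QLoc (u : Zm →* unitary B) (E : Fin n → Fin n → B →L[ℂ] C(X, ℂ)) {J : ℕ}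
    (q : Fin J → C(X, ℝ)) (n₀ : ℕ) (C : ℝ) (b : B) : Prop :=
  ∀ k l (z : Zm) (x y : X) (ρ : ℝ), 0 ≤ ρ → Near q (-(n₀ : ℤ)) n₀ x y ρ →
    ‖E k l (b * (u z : B)) x - E k l (b * (u z : B)) y‖ ≤ C * ρ

/-- `1 - ∑_{|i| ≤ R} φ(zt i x)` -/
def gam (φ : C(X, ℝ)) (R : ℕ) : C(X, ℝ) :=
  1 - ∑ i ∈ Finset.Icc (-(R : ℤ)) R, φ.comp (tr (zt i))

/-- a real function as a complex function -/
def toC (f : C(X, ℝ)) : C(X, ℂ) := ⟨fun x => (f x : ℂ), by fun_prop⟩

end cross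

/-- the group elements `zt j`, `|j| ≤ R` -/
def Kb (R : ℕ) : Finset Zm := (Finset.Icc (-(R : ℤ)) R).image zt

/-- **SPL**: splitting elements form a closed `*`-algebra, on which the compressions are
multiplicative.

PROOF. All from the product formula: for `b` arbitrary and `d` of finite propagation (dense),
`E k l (star u_r * (b * d) * u_s) x = ∑_t ∑_j E k j (star u_r * b * u_t) x * E j l (star u_t * d * u_s) x`
(finite sum over `t`; `StMUL` gives it for `b`, `d` both of finite propagation, `IsMCross.induction`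
/ density and continuity of the `E k l` give it for all `b`). (1): if `b` splits at `x`,
`r ≥ 0 > s`, then `E k l (star u_r * (b * d) * u_s) x = ∑_{t ≥ 0} ...` and for `d` which also splits
the terms vanish - but `d` is not of finite propagation; so argue as follows: for every `b` and every
`x`, `r` the sequence `t ↦ E k j (star u_r * b * u_t) x` is square summable with sum of squares
`≤ ‖b‖²` (Bessel; for finite propagation from `StMUL` applied to `b * star b`, then by density), and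
by continuity of both sides (Cauchy-Schwarz) the product formula holds as a convergent sum
(`HasSum`/`tsum`) for all `b`, `d`. [It suffices to know, for fixed `r`, `s`, `x` that the formula
holds with `tsum` over `t`.] (2), (5) then follow since for splitting `b` only the `t ∈ [0, Λ)` occur.
(3), (4): `E k l (star b) x = conj (E l k b x)` (from density, `IsMCross.star_mon`).
(6): the set of elements which split at `x` is a closed unital `*`-subalgebra by the previous parts,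
so it contains `cfc f b` for `b` in it (`cfc_mem`-type lemmas, or: `StarAlgebra.elemental`).
(7) is `E k l (star u_s * b * u_s) x = E k l b (s • x)` (`StMUL`). -/
def S_SPL : Prop := ∀ (X : Type) [TopologicalSpace X] [CompactSpace X] [MulAction Zm X]
  [ContinuousConstSMul Zm X] (B : Type) [CStarAlgebra B] (n : ℕ)
  (ι : C(X, ℂ) →⋆ₐ[ℂ] B) (u : Zm →* unitary B) (e : Fin n → Fin n → B)
  (E : Fin n → Fin n → B →L[ℂ] C(X, ℂ)), IsMCross ι u e E →
  (∀ x (b d : B), SplitAt u E b x → SplitAt u E d x → SplitAt u E (b * d) x) ∧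
  (∀ x (b d : B) (Λ : ℕ), SplitAt u E b x → SplitAt u E b (zt (Λ : ℤ) • x) →
    W u E (b * d) Λ x = W u E b Λ x * W u E d Λ x) ∧
  (∀ x (b : B), SplitAt u E b x → SplitAt u E (star b) x) ∧
  (∀ x (b : B) (Λ : ℕ), W u E (star b) Λ x = (W u E b Λ x)ᴴ) ∧
  (∀ x (b d : B) (c : ℂ), SplitAt u E b x → SplitAt u E d x → SplitAt u E (c • b + d) x) ∧
  (∀ x (b : B) (f : ℝ → ℝ), Continuous f → IsSelfAdjoint b → SplitAt u E b x →
    SplitAt u E (cfc f b) x) ∧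
  (∀ x (b : B) (m : ℤ) (i j : ℤ) (k l : Fin n),
    E k l (star (u (zt (m + i)) : B) * b * (u (zt (m + j)) : B)) x =
      E k l (star (u (zt i) : B) * b * (u (zt j) : B)) (zt m • x)) ∧
  (∀ x (Λ : ℕ), W u E (1 : B) Λ x = 1) ∧
  (∀ x (f : C(X, ℂ)), SplitAt u E (ι f) x) ∧
  (∀ x (f : C(X, ℂ)) (Λ : ℕ), W u E (ι f) Λ x =
    Matrix.diagonal fun p : Fin n × Fin Λ => f (zt ((p.2 : ℕ) : ℤ) • x)) ∧
  (∀ x (b : B) (Λ : ℕ) (k l), ‖W u E b Λ x k l‖ ≤ ‖b‖) ∧
  (∀ (b : B) (Λ : ℕ), Continuous (W u E b Λ)) ∧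
  (∀ (Λ : ℕ) x (b d : B) (c : ℂ), W u E (c • b + d) Λ x = c • W u E b Λ x + W u E d Λ x) ∧
  (∀ (Λ : ℕ) x (b : B), (W u E (star b * b) Λ x).PosSemidef)

/-- **SPC**: the cut-down `γ b γ` of an element of propagation `≤ R` splits where `φ = 1`; its
compressions.

PROOF. If `φ x = 1`, `i ≥ 0 > j`: the entry of `γ b γ` is `γ(zt i x) (entry of b) γ(zt j x)`
(`E k l (star u_i * (ι f * b * ι g) * u_j) x = f(zt i x) * E k l (star u_i * b * u_j) x * g(zt j x)`,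
from `IsMCross.cov` and `IsMCross.induction`); if `i - j ≤ R` then `|i| ≤ R` and
`γ(zt i x) = 1 - ∑_{|m| ≤ R} φ(zt (i+m) x)`, where the term `m = -i` is `1` and the others vanish
(`Mark.sep`, `2R ≤ N`), so `γ(zt i x) = 0`; if `i - j > R` the entry of `b` is `0` (`StMUL`, first
part). -/
def S_SPC : Prop := ∀ (X : Type) [TopologicalSpace X] [CompactSpace X] [MulAction Zm X]
  [ContinuousConstSMul Zm X] (B : Type) [CStarAlgebra B] (n : ℕ)
  (ι : C(X, ℂ) →⋆ₐ[ℂ] B) (u : Zm →* unitary B) (e : Fin n → Fin n → B)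
  (E : Fin n → Fin n → B →L[ℂ] C(X, ℂ)), IsMCross ι u e E →
  (∀ (b : B) (f g : C(X, ℂ)) (Λ : ℕ) (x : X) (p q : Fin n × Fin Λ),
    W u E (ι f * b * ι g) Λ x p q = f (zt ((p.2 : ℕ) : ℤ) • x) * W u E b Λ x p q *
      g (zt ((q.2 : ℕ) : ℤ) • x)) ∧
  (∀ (φ : C(X, ℝ)) (N L R : ℕ), Mark φ N L → 2 * R ≤ N →
    (∀ x, 0 ≤ gam φ R x ∧ gam φ R x ≤ 1) ∧
    ∀ (b : B), Prp ι u e (Kb R) b → ∀ x, φ x = 1 →
      SplitAt u E (ι (toC (gam φ R)) * b * ι (toC (gam φ R))) x)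

/-- **PPW**: the compression of `(b - ε)₊` is the positive part of the compression of `b - ε`.

PROOF. `cut ε b = cfc (fun t => max (t-ε) 0) b =: Y`, `Z = cfc (fun t => max (ε-t) 0) b`; both are
positive, `Y - Z = b - ε`, `Y * Z = 0`, and they split at `x` and at `zt Λ • x` (`S_SPL` (6)). Apply
the compression, which is linear, multiplicative on splitting elements, and positive. -/
def S_PPW : Prop := S_SPL → ∀ (X : Type) [TopologicalSpace X] [CompactSpace X] [MulAction Zm X]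
  [ContinuousConstSMul Zm X] (B : Type) [CStarAlgebra B] (n : ℕ)
  (ι : C(X, ℂ) →⋆ₐ[ℂ] B) (u : Zm →* unitary B) (e : Fin n → Fin n → B)
  (E : Fin n → Fin n → B →L[ℂ] C(X, ℂ)), IsMCross ι u e E →
  ∀ (b : B) (ε : ℝ) (Λ : ℕ) (x : X), 0 ≤ ε → IsSelfAdjoint b → SplitAt u E b x →
    SplitAt u E b (zt (Λ : ℤ) • x) →
    IsPP (W u E (cut ε b) Λ x)
      (W u E b Λ x - (ε : ℂ) • (1 : Matrix (Fin n × Fin Λ) (Fin n × Fin Λ) ℂ)) ∧
    SplitAt u E (cut ε b) x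

/-- **POSF**: positivity from positivity of the compressions.

PROOF. For `y` of finite propagation `E k k (star y * T * y) x ≥ 0`: it is
`∑ conj(y-entries) (compression of T to a window [-M, M]) (y-entries)` (product formula of `StMUL`;
approximate `T` by elements of finite propagation, or use the version of the product formula with one
factor arbitrary), and the compression of `T` to `[-M, M]` at `x` is `W u E T (2M+1) (zt (-M) • x)`. By
density `E k k (star y * T * y) ≥ 0` for all `y ∈ B`. Let `y = T₋ = cfc (fun t => max (-t) 0) T`: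
`star y * T * y = -y³`, so `E k k (y³) ≤ 0`, while `y³ ≥ 0`; hence `E k k (y³) = 0` for all `k`, so
`y³ = 0` by faithfulness (`y³ = star b * b`, `b = y^{3/2}`; `b = 0`), `y = 0` and `T = T₊ ≥ 0`. -/
def S_POSF : Prop := ∀ (X : Type) [TopologicalSpace X] [CompactSpace X] [MulAction Zm X]
  [ContinuousConstSMul Zm X] (B : Type) [CStarAlgebra B] [PartialOrder B] [StarOrderedRing B]
  (n : ℕ) (ι : C(X, ℂ) →⋆ₐ[ℂ] B) (u : Zm →* unitary B) (e : Fin n → Fin n → B)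
  (E : Fin n → Fin n → B →L[ℂ] C(X, ℂ)), IsMCross ι u e E →
  (∀ b : B, (∀ k, E k k (star b * b) = 0) → b = 0) →
  ∀ T : B, IsSelfAdjoint T → (∀ (Λ : ℕ) (x : X), (W u E T Λ x).PosSemidef) → 0 ≤ T

/-- **BLK**: positivity of all compressions from positivity of the compressions to the blocks
between consecutive points where `φ = 1`.

PROOF. Given `Λ`, `x` there are `a ≤ 0` and `b ≥ Λ` with `φ(zt a x) = 1 = φ(zt b x)` (`ret`).
`W T Λ x` is a principal submatrix of `W T (b-a) (zt a x)`, so it is enough to treat windows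
`[0, Λ)` at `x` with `φ x = 1 = φ(zt Λ x)`, by strong induction on `Λ`: if `Λ ≤ Lmax` use the
hypothesis (`Λ = 0` is trivial); otherwise there is `1 ≤ i ≤ Lmax < Λ` with `φ(zt i x) = 1`, and since
`T` splits at `zt i x` the matrix `W T Λ x` is block diagonal with blocks `W T i x`,
`W T (Λ-i) (zt i x)` (use `S_SPL` (7)). -/
def S_BLK : Prop := S_SPL → ∀ (X : Type) [TopologicalSpace X] [CompactSpace X] [MulAction Zm X]
  [ContinuousConstSMul Zm X] (B : Type) [CStarAlgebra B] (n : ℕ)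
  (ι : C(X, ℂ) →⋆ₐ[ℂ] B) (u : Zm →* unitary B) (e : Fin n → Fin n → B)
  (E : Fin n → Fin n → B →L[ℂ] C(X, ℂ)), IsMCross ι u e E →
  ∀ (φ : C(X, ℝ)) (N Lmax : ℕ), Mark φ N Lmax → ∀ T : B, (∀ x, φ x = 1 → SplitAt u E T x) →
  (∀ Λ : ℕ, 1 ≤ Λ → Λ ≤ Lmax → ∀ x, φ x = 1 → φ (zt (Λ : ℤ) • x) = 1 →
    (W u E T Λ x).PosSemidef) →
  ∀ (Λ : ℕ) (x : X), (W u E T Λ x).PosSemidef

/-- **VEL**: the element `v` with prescribed compressions `vW`.

PROOF. `v = ∑_{L=1}^{Lmax} ∑_{(k,s),(l,t) ∈ Fin n × Fin L} c L (k,s) (l,t) •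
(u_s * ι (psi φ L) * e k l * star u_t)`. By `IsMCross.cov` the element `u_s ι(f) e_kl u_t^*` has the
entries `E k' l' (star u_i * (..) * u_j) x = f(zt (i-s) x)` if `(k',l') = (k,l)` and
`i - s = j - t`, and `0` otherwise; so the entry of `v` at `((k,i),(l,j))`, at `x`, is
`∑_L ∑_p [p ≤ i,j < p+L] psi φ L (zt p x) c L (k,i-p) (l,j-p)` (`p ∈ ℤ`). If `psi φ L (zt p x) ≠ 0`
then `φ(zt m x) ≠ 1` for `p < m < p+L`. So if `φ x = 1` no block with nonzero weight contains both a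
negative and a nonnegative integer (splitting), and if `φ x = 1 = φ(zt Λ x)` and `0 ≤ i,j < Λ` only
blocks with `0 ≤ p`, `p + L ≤ Λ` contribute; this is `vW φ c x Λ` (for `Λ ≤ Lmax`). -/
def S_VEL : Prop := ∀ (X : Type) [TopologicalSpace X] [CompactSpace X] [MulAction Zm X]
  [ContinuousConstSMul Zm X] (B : Type) [CStarAlgebra B] (n : ℕ)
  (ι : C(X, ℂ) →⋆ₐ[ℂ] B) (u : Zm →* unitary B) (e : Fin n → Fin n → B)
  (E : Fin n → Fin n → B →L[ℂ] C(X, ℂ)), IsMCross ι u e E →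
  ∀ (φ : C(X, ℝ)) (Lmax : ℕ) (c : (L : ℕ) → Matrix (Fin n × Fin L) (Fin n × Fin L) ℂ),
    ∃ v : B, (∀ x, φ x = 1 → SplitAt u E v x) ∧
      ∀ Λ : ℕ, 1 ≤ Λ → Λ ≤ Lmax → ∀ x, φ x = 1 → φ (zt (Λ : ℤ) • x) = 1 →
        W u E v Λ x = vW φ c x Λ

/-- **APP**: approximation of positive elements by positive elements of finite propagation with
entries depending on a family of small density.

PROOF. Write `a = a₀ * a₀`, `b = b₀ * b₀` (`a₀`, `b₀ ≥ 0` square roots). By density there are finite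
sums `a₁ = ∑ ι(f) e_kl u_g`, `b₁` (same index set, `g ∈ Kb R₀`) close to `a₀`, `b₀`. Apply `LocApp` to
the finite family of all coefficient functions of `a₁`, `b₁`, with a small `ε`, and let `a₂`, `b₂` be
the sums with the approximating functions; `a' = star a₂ * a₂`, `b' = star b₂ * b₂`. The entries
`E k l (a' * u z)` are finite sums of products `conj(g(zt i x)) g'(zt j x)`, `|i|, |j| ≤ 2 R₀`, of
approximating functions (`IsMCross.mon_mul`), so they are Lipschitz functions of the values of `q` on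
the window `[-(n₀+2R₀), n₀+2R₀]`; `R = 2 R₀`. (`E k l (a' * u z) = 0` for all but finitely many
`z`.) -/
def S_APP : Prop := ∀ (X : Type) [TopologicalSpace X] [CompactSpace X] [MulAction Zm X]
  [ContinuousConstSMul Zm X] (B : Type) [CStarAlgebra B] [PartialOrder B] [StarOrderedRing B]
  (n : ℕ) (ι : C(X, ℂ) →⋆ₐ[ℂ] B) (u : Zm →* unitary B) (e : Fin n → Fin n → B)
  (E : Fin n → Fin n → B →L[ℂ] C(X, ℂ)), IsMCross ι u e E → ∀ D : ℝ, LocApp X D →
  ∀ (a b : B) (κ : ℝ), 0 ≤ a → 0 ≤ b → 0 < κ →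
  ∃ (a' b' : B) (R : ℕ), 0 ≤ a' ∧ 0 ≤ b' ∧ Prp ι u e (Kb R) a' ∧ Prp ι u e (Kb R) b' ∧
    ‖a - a'‖ ≤ κ ∧ ‖b - b'‖ ≤ κ ∧
    ∃ (J : ℕ) (q : Fin J → C(X, ℝ)), QFam q D ∧ ∃ (n₀ : ℕ) (C : ℝ), 0 ≤ C ∧
      QLoc u E q n₀ C a' ∧ QLoc u E q n₀ C b'

/-- **GAP**: the uniform gap, over long intervals.

PROOF. `t_KL` (library, `H107_ZS/TKL.lean`) for `H = ⊤` and the functions
`Ft E (phi (1/(m+1)) b) - Ft E (phi ε a) - r` (increasing in `m`, see the proof of `t_GAP` in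
`H107_ZS/TGAP.lean`), with intervals as Følner sets (`fol_interval_CYC` in `H107_ZS/TCYC.lean`, or
directly: `K` finite, so `K ⊆ Kb M`, and at most `M` points of `[0, Λ)` leave it under `+g`). -/
def S_GAP : Prop := ∀ (X : Type) [TopologicalSpace X] [CompactSpace X] [Nonempty X]
  [MulAction Zm X] [ContinuousConstSMul Zm X] (B : Type) [CStarAlgebra B] [PartialOrder B]
  [StarOrderedRing B] (n : ℕ) (ι : C(X, ℂ) →⋆ₐ[ℂ] B) (u : Zm →* unitary B)
  (e : Fin n → Fin n → B) (E : Fin n → Fin n → B →L[ℂ] C(X, ℂ)), IsMCross ι u e E →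
  ∀ (a b : B) (ε r : ℝ), 0 ≤ a → 0 ≤ b → 0 < ε →
  (∀ Λ : C(X, ℝ) →ₗ[ℝ] ℝ, InvState (⊤ : Subgroup Zm) Λ →
    ∃ δ : ℝ, 0 < δ ∧ Λ (Ft E (phi ε a)) + r < Λ (Ft E (phi δ b))) →
  ∃ (δ γ : ℝ) (N₀ : ℕ), 0 < δ ∧ 0 < γ ∧ ∀ Λ : ℕ, N₀ ≤ Λ → ∀ x : X,
    (r + γ) * Λ ≤ ∑ i ∈ Finset.range Λ,
      (Ft E (phi δ b) - Ft E (phi ε a)) (zt ((i : ℕ) : ℤ) • x)

/-- **RG**: the rank gap on the blocks between points with `φ = 1`.

PROOF. Let `δ`, `γ`, `N₀` be as in `hgap`. Apply `t_RANK` (library, `H107_ZS/TRANK.lean`) with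
`ε`, `δ`, `θ = γ/4`: this gives `κ, δ', C, τ` and the length `N`. Let `a'`, `b'`, `R` be given
(`K = Kb R`), and let `N₁` be large. Let `x`, `Λ` with `φ x = 1 = φ(zt Λ x)`, `0 < Λ`; then
`Λ > N₁` by `sep`. Take `S = {zt i | 0 ≤ i < Λ}`, `χ(zt i) = γ_φ(zt i x)` for `0 ≤ i < Λ`, `0` outside
(`γ_φ = gam φ R`), `T` = the set of the `zt i` for which `N R ≤ i < Λ - N R` and
`γ_φ(zt (i+j) x) = 1` for all `|j| ≤ N R`. The points `i` excluded are within distance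
`(N+1) R` of a point where `φ ≠ 0` or of the ends, and the points of `[0, Λ)` (enlarged by
`(N+1)R`) with `φ ≠ 0` are more than `N₁` apart, so at most
`(2(N+1)R+1)((Λ + 2(N+1)R)/N₁ + 3) ≤ τ Λ` points are excluded, if `N₁` is large (`Λ > N₁`); similarly
`n · #{i < Λ | γ_φ(zt i x) ≠ 1} ≤ (γ/4) Λ`. `t_RANK` gives projections `p`, `q` (index set
`Fin n × S`, to be reindexed to `Fin n × Fin Λ`; `CmpX` becomes `W` of the cut-down element by the
first part of `S_SPC`) with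
`tr p + (r+γ) Λ ≤ tr p + ∑_{i<Λ} (Ft(phi δ b) - Ft(phi ε a))(zt i x) ≤ tr q + (γ/4) Λ`; trace = rank
for projections. -/
def S_RG : Prop := S_SPC → ∀ (X : Type) [TopologicalSpace X] [CompactSpace X]
  [MulAction Zm X] [ContinuousConstSMul Zm X] (B : Type) [CStarAlgebra B] [PartialOrder B]
  [StarOrderedRing B] (n : ℕ) (ι : C(X, ℂ) →⋆ₐ[ℂ] B) (u : Zm →* unitary B)
  (e : Fin n → Fin n → B) (E : Fin n → Fin n → B →L[ℂ] C(X, ℂ)), IsMCross ι u e E →
  ∀ (a b : B) (ε r δ γ : ℝ) (N₀ : ℕ), 0 ≤ a → 0 ≤ b → 0 < ε → 0 < δ → 0 < γ →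
  (∀ Λ : ℕ, N₀ ≤ Λ → ∀ x : X, (r + γ) * Λ ≤ ∑ i ∈ Finset.range Λ,
      (Ft E (phi δ b) - Ft E (phi ε a)) (zt ((i : ℕ) : ℤ) • x)) →
  ∃ (κ δ' C : ℝ), 0 < κ ∧ 4 * κ ≤ δ' ∧ κ ≤ ε ∧ 0 < C ∧
    ∀ (a' b' : B) (R : ℕ), IsSelfAdjoint a' → IsSelfAdjoint b' → Prp ι u e (Kb R) a' →
      Prp ι u e (Kb R) b' → ‖a - a'‖ ≤ κ → ‖b - b'‖ ≤ κ →
      ∃ N₁ : ℕ, ∀ (N : ℕ) (φ : C(X, ℝ)) (L : ℕ), N₁ ≤ N → Mark φ N L →
        ∀ (x : X) (Λ : ℕ), 0 < Λ → φ x = 1 → φ (zt (Λ : ℤ) • x) = 1 →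
        ∃ p q : Matrix (Fin n × Fin Λ) (Fin n × Fin Λ) ℂ, IsStarProjection p ∧
          IsStarProjection q ∧
          ((ε : ℂ) • (1 : Matrix (Fin n × Fin Λ) (Fin n × Fin Λ) ℂ) + (C : ℂ) • p -
            W u E (ι (toC (gam φ R)) * a' * ι (toC (gam φ R))) Λ x).PosSemidef ∧
          (W u E (ι (toC (gam φ R)) * b' * ι (toC (gam φ R))) Λ x +
            (κ : ℂ) • (1 : Matrix (Fin n × Fin Λ) (Fin n × Fin Λ) ℂ) -
            (δ' : ℂ) • q).PosSemidef ∧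
          (p.rank : ℝ) + n * (((Finset.range Λ).filter
            fun i : ℕ => gam φ R (zt (i : ℤ) • x) ≠ 1).card : ℝ) + r * Λ ≤ q.rank

/-- **LIPW**: Lipschitz dependence of the compressions of the cut-down elements.

PROOF. The entries of `W u E a' Λ x` are
`E k l (star u_s * a' * u_t) x = E k l (a' * u_{t-s}) (zt s x)` (`StMUL`, third part), so they are
`C ρ`-close for `x`, `y` (`QLoc`; the window `[s - n₀, s + n₀]` is contained in
`[-n₀, Λ + n₀]`); multiplying by `γ_φ(zt s x) γ_φ(zt t x)` (`S_SPC`), where `γ_φ(zt s x)` is a sum of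
values `φ(zt i x)`, `-R ≤ i ≤ Λ+R`, preserves this up to the constant (the entries are bounded by
`‖a'‖`). Subtracting `ε` and taking positive parts (`S_PPW`, valid at `x` and `y` since
`φ = 1` at the ends, `S_SPC`) preserves it up to the constant because of `S_PP` (a) (sums of squares of
the entries). -/
def S_LIPW : Prop := S_SPL → S_SPC → S_PPW → S_PP →
  ∀ (X : Type) [TopologicalSpace X] [CompactSpace X] [MulAction Zm X]
  [ContinuousConstSMul Zm X] (B : Type) [CStarAlgebra B] (n : ℕ)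
  (ι : C(X, ℂ) →⋆ₐ[ℂ] B) (u : Zm →* unitary B) (e : Fin n → Fin n → B)
  (E : Fin n → Fin n → B →L[ℂ] C(X, ℂ)), IsMCross ι u e E →
  ∀ (J : ℕ) (q : Fin J → C(X, ℝ)) (n₀ : ℕ) (C : ℝ) (a : B), 0 ≤ C → IsSelfAdjoint a →
  QLoc u E q n₀ C a → ∀ (φ : C(X, ℝ)) (N L R : ℕ), Mark φ N L → 2 * R ≤ N →
  Prp ι u e (Kb R) a → ∀ (ε : ℝ) (Λ : ℕ), 0 ≤ ε → ∃ C' : ℝ, 0 ≤ C' ∧ ∀ (x y : X) (ρ : ℝ), 0 ≤ ρ →
    φ x = 1 → φ (zt (Λ : ℤ) • x) = 1 → φ y = 1 → φ (zt (Λ : ℤ) • y) = 1 →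
    Near q (-(n₀ : ℤ)) (Λ + n₀) x y ρ →
    (∀ i : ℤ, -(R : ℤ) ≤ i → i ≤ Λ + R → |φ (zt i • x) - φ (zt i • y)| ≤ ρ) →
    ∀ k l, ‖W u E (cut ε (ι (toC (gam φ R)) * a * ι (toC (gam φ R)))) Λ x k l -
      W u E (cut ε (ι (toC (gam φ R)) * a * ι (toC (gam φ R)))) Λ y k l‖ ≤ C' * ρ

/-! ## Part 5: traces, the crossed product -/

/-- **TRC**: from quasitraces to invariant states.

PROOF. Let `Λ` be an invariant state. `t_TS` (library, `H107_ZS/TTS.lean`) gives a tracial state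
`T : Tr A`, `T.f 1 = 1`, with `(T.f a).re = Λ f` whenever `f = re ∘ E a`. Define a `QT A` by
`val n M = ∑ i, T.f (M i i)` (positivity, the trace property and linearity are immediate;
`map_corner`: the new diagonal entry is `0`). `RankLT` gives `d`, `d'` with `d + r < d'` and sequences
of positive roots. A positive `y ∈ M_n(A)` with `y^(m+1) = a` equals `rt m a` (functional calculus in
the C*-algebra `MM n A = CStarMatrix (Fin n) (Fin n) A`: `rt m (y^(m+1)) = y` by `cfc`-composition;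
`CStarMatrix.ofMatrix` is a `*`-isomorphism of algebras), so `IsRank (trM T (Fin n)) a d` etc., and
then argue as in `rank_gap` (library, `H107_ZS/TSC1.lean`). -/
def S_TRC : Prop := ∀ (X : Type) [TopologicalSpace X] [CompactSpace X] [MulAction Zm X]
  [ContinuousConstSMul Zm X] (A : Type) [CStarAlgebra A] [PartialOrder A] [StarOrderedRing A]
  (ι : C(X, ℂ) →⋆ₐ[ℂ] A) (u : Zm →* unitary A) (E : A →L[ℂ] C(X, ℂ)), IsCross ι u E →
  ∀ (n : ℕ) (a b : Matrix (Fin n) (Fin n) A) (r : ℝ), IsPos a → IsPos b → RankLT r a b →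
  0 ≤ (CStarMatrix.ofMatrix a : MM n A) ∧ 0 ≤ (CStarMatrix.ofMatrix b : MM n A) ∧
  ∀ (E' : Fin n → Fin n → MM n A →L[ℂ] C(X, ℂ)), (∀ k l M, E' k l M = E (M k l)) →
  ∀ Λ : C(X, ℝ) →ₗ[ℝ] ℝ, InvState (⊤ : Subgroup Zm) Λ → ∀ ε : ℝ, 0 < ε →
    ∃ δ : ℝ, 0 < δ ∧ Λ (Ft E' (phi ε (CStarMatrix.ofMatrix a : MM n A))) + r <
      Λ (Ft E' (phi δ (CStarMatrix.ofMatrix b : MM n A)))

/-- the action of `Zm` on `X` given by a homeomorphism -/
@[reducible] def zact {X : Type} [TopologicalSpace X] (h : X ≃ₜ X) : MulAction Zm X where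
  smul z x := (h ^ (Multiplicative.toAdd z)) x
  one_smul x := by
    show (h ^ (0 : ℤ)) x = x
    rw [zpow_zero]; rfl
  mul_smul a b x := by
    show (h ^ (Multiplicative.toAdd a + Multiplicative.toAdd b)) x =
      (h ^ (Multiplicative.toAdd a)) ((h ^ (Multiplicative.toAdd b)) x)
    rw [_root_.zpow_add]; rfl

/-- **UNIV**: the full crossed product is the reduced crossed product.

PROOF. Let `(A₀, ι₀, u₀, E₀)` be a reduced crossed product for the action `zact h` (`t_EX`, library,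
`H107_ZS/TEX.lean`). Let `U : Zm →* unitary A`, `U (zt i) = u^i`. The universal property gives
`Φ : A → A₀` with `Φ ∘ ι = ι₀`, `Φ u = u₀ (zt 1)`; put `E = E₀ ∘ Φ`. Everything except `faithful` is
immediate (`dense`: the closure of the span of the `ι f * U z` is a closed `*`-subalgebra containing
`ι f` and `u`, so it is everything by `generated`; `cov` for all `z` by induction). Faithfulness: for
`ζ` in the unit circle the universal property gives `γ_ζ : A → A` with `γ_ζ ∘ ι = ι`, `γ_ζ u = ζ u`;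
`‖γ_ζ a‖ ≤ ‖a‖`, `ζ ↦ γ_ζ a` is continuous (density). Let `P_m(a) = 2^{-m} ∑_{j < 2^m} γ_{ζ_m^j}(a)`,
`ζ_m = exp(2πi/2^m)`. For `a = ∑_{|i| < 2^m} ι(f_i) u^i`, `P_m(a) = ι(f_0) = ι(E a)`; by density and
contractivity `P_m(a) → ι(E a)` for all `a`. Suppose `E (b) = 0`, `b = star a * a`; then
`P_m(b) → 0`. If `b ≠ 0`, there is a positive functional (state) `φ` with `φ(b) = c > 0`;
`φ(γ_ζ b) ≥ 0` for all `ζ` and `≥ c/2` for `|ζ - 1| < δ`, so `φ(P_m b) ≥ (c/2) (δ/8)` for large `m`, a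
contradiction. (Instead of a state one can use: `γ_ζ b ≥ 0`, `‖γ_ζ b - b‖ ≤ c/4` for `ζ` near `1`, so
`P_m(b) ≥ s (b - ‖b‖/4)` with `s ≥ δ/8`, and `‖P_m(b)‖ ≥ s (3/4) ‖b‖`.) -/
def S_UNIV : Prop := Pool.Agent.H107ZS.StEX.{0} → ∀ (X : Type) [TopologicalSpace X] [CompactSpace X] [T2Space X]
  (h : X ≃ₜ X) (A : Type) [CStarAlgebra A] (ι : C(X, ℂ) →⋆ₐ[ℂ] A) (u : A),
  IsCrossedProduct h ι u →
  letI := zact h
  ∀ [ContinuousConstSMul Zm X], ∃ (U : Zm →* unitary A) (E : A →L[ℂ] C(X, ℂ)),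
    (U (zt 1) : A) = u ∧ IsCross ι U E

/-- **CORE**: the theorem on the level of the matrix algebra over the crossed product.

PROOF. See the assembly. -/
def S_CORE : Prop := ∀ (X : Type) [TopologicalSpace X] [CompactSpace X] [T2Space X] [Nonempty X]
  [MulAction Zm X] [ContinuousConstSMul Zm X] (B : Type) [CStarAlgebra B] [PartialOrder B]
  [StarOrderedRing B] (n : ℕ) (ι : C(X, ℂ) →⋆ₐ[ℂ] B) (u : Zm →* unitary B)
  (e : Fin n → Fin n → B) (E : Fin n → Fin n → B →L[ℂ] C(X, ℂ)), IsMCross ι u e E →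
  (∀ b : B, (∀ k, E k k (star b * b) = 0) → b = 0) → HasMarks X →
  ∀ (D₀ r : ℝ), MdimLT X D₀ → D₀ < 2 * r → ∀ a b : B, 0 ≤ a → 0 ≤ b →
  (∀ Λ : C(X, ℝ) →ₗ[ℝ] ℝ, InvState (⊤ : Subgroup Zm) Λ → ∀ ε : ℝ, 0 < ε →
    ∃ δ : ℝ, 0 < δ ∧ Λ (Ft E (phi ε a)) + r < Λ (Ft E (phi δ b))) → Cz a b

end

end Pool.Agent.H252.MD
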