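import Pool.Agent.H252.MD.Iface
import Pool.Graph.R_pool_sql_team_seeded_620a6dc7.H107_ZS.TMC
import Pool.Graph.R_pool_sql_team_seeded_620a6dc7.H107_ZS.TEX
import Pool.Graph.R_seed8.H327R4.Pure.All

/-!
# From the core theorem to the radius of comparison
-/

set_option autoImplicit false
set_option linter.unusedSectionVars false

namespace Pool.Agent.H252.MD

open Filter Topology
open Pool.Agent.H107ZS Pool.Agent.H327R4.Pure
open scoped CStarAlgebra ComplexOrder ENNReal NNReal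

noncomputable section

section mdim

variable {X : Type} [TopologicalSpace X] (h : X ≃ₜ X)

theorem zact_zt (i : ℤ) (x : X) : (letI := zact h; zt i • x) = (h ^ i) x := rfl

theorem hom_iter (n : ℕ) (x : X) : (h ^ (n : ℤ)) x = h^[n] x := by
  rw [zpow_natCast]
  induction n generalizing x with
  | zero => rfl
  | succ n ih =>
    rw [pow_succ, Function.iterate_succ_apply]
    exact ih (h x)

theorem zact_cont : letI := zact h; ContinuousConstSMul Zm X := by
  letI := zact h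
  exact ⟨fun z => (h ^ (Multiplicative.toAdd z)).continuous⟩

theorem join_isCov {U : Set (Set X)} (hU : IsCov U) (n : ℕ) : IsCov (joinIter h U n) := by
  obtain ⟨hf, ho, hu⟩ := hU
  refine ⟨?_, ?_, ?_⟩
  · have h1 : joinIter h U n =
        (fun s : Fin n → Set X => ⋂ i : Fin n, (h^[(i : ℕ)]) ⁻¹' s i) '' {s | ∀ i, s i ∈ U} := by
      ext W
      constructor
      · rintro ⟨s, hs, rfl⟩
        exact ⟨s, hs, rfl⟩
      · rintro ⟨s, hs, rfl⟩
        exact ⟨s, hs, rfl⟩
    rw [h1]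
    refine Set.Finite.image _ ?_
    exact Set.Finite.pi' (ι := Fin n) (κ := fun _ => Set X) (t := fun _ => U) fun _ => hf
  · rintro W ⟨s, hs, rfl⟩
    refine isOpen_iInter_of_finite fun i => ?_
    exact (ho _ (hs i)).preimage (h.continuous.iterate _)
  · rw [Set.eq_univ_iff_forall]
    intro x
    have : ∀ i : Fin n, ∃ t ∈ U, h^[(i : ℕ)] x ∈ t := by
      intro i
      have : h^[(i : ℕ)] x ∈ ⋃₀ U := by rw [hu]; trivial
      exact this
    choose t ht hx using this
    exact ⟨_, ⟨t, ht, rfl⟩, Set.mem_iInter.2 hx⟩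

theorem mdimLT {D : ℝ} (hD : mdim h < ENNReal.ofReal D) :
    letI := zact h
    MdimLT X D := by
  letI := zact h
  intro U hU M
  have h1 : liminf (fun n : ℕ => (covDim (joinIter h U n) : ℝ≥0∞) / (n : ℝ≥0∞)) atTop <
      ENNReal.ofReal D := by
    refine lt_of_le_of_lt ?_ hD
    exact le_iSup₂ (f := fun (U : Set (Set X)) (_ : IsCov U) =>
      liminf (fun n : ℕ => (covDim (joinIter h U n) : ℝ≥0∞) / (n : ℝ≥0∞)) atTop) U hU
  have h2 := frequently_lt_of_liminf_lt (by isBoundedDefault) h1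
  obtain ⟨n, hn, h3⟩ := (frequently_atTop.1 h2) (max M 1)
  have hnM : M ≤ n := (le_max_left _ _).trans hn
  have hn1 : 1 ≤ n := (le_max_right _ _).trans hn
  refine ⟨n, hnM, ?_⟩
  have hne : {d | ∃ V : Set (Set X), IsCov V ∧ (∀ s ∈ V, ∃ t ∈ joinIter h U n, s ⊆ t) ∧
      OrdLE V d}.Nonempty := by
    refine ⟨(joinIter h U n).ncard, joinIter h U n, join_isCov h hU n,
      fun s hs => ⟨s, hs, subset_rfl⟩, fun x => ?_⟩
    refine (Set.ncard_le_ncard (fun s hs => hs.1) (join_isCov h hU n).1).trans (by omega)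
  obtain ⟨V, hV, href, hord⟩ := Nat.sInf_mem hne
  refine ⟨V, hV, fun s hs => ?_, fun x => ?_⟩
  · obtain ⟨t, ⟨T, hT, rfl⟩, hst⟩ := href s hs
    refine ⟨T, hT, fun x hx i => ?_⟩
    have := Set.mem_iInter.1 (hst hx) i
    show (h ^ ((i : ℕ) : ℤ)) x ∈ T i
    rw [hom_iter]
    exact this
  · have h4 : (covDim (joinIter h U n) : ℝ) ≤ D * n := by
      have hn0 : (n : ℝ≥0∞) ≠ 0 := by exact_mod_cast (by omega : n ≠ 0)
      have hnt : (n : ℝ≥0∞) ≠ ⊤ := ENNReal.natCast_ne_top n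
      rw [ENNReal.div_lt_iff (Or.inl hn0) (Or.inl hnt)] at h3
      have hD0 : 0 ≤ D := by
        by_contra hneg
        push Not at hneg
        rw [ENNReal.ofReal_of_nonpos hneg.le, zero_mul] at h3
        exact absurd h3 (by simp)
      rw [← ENNReal.ofReal_natCast, ← ENNReal.ofReal_natCast, ← ENNReal.ofReal_mul hD0] at h3
      have h5 := (ENNReal.ofReal_lt_ofReal_iff_of_nonneg (Nat.cast_nonneg _)).1 h3
      exact h5.le
    have h5 := hord x
    have h6 : (({s | s ∈ V ∧ x ∈ s}.ncard : ℕ) : ℝ) ≤ covDim (joinIter h U n) + 1 := by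
      exact_mod_cast h5
    linarith

end mdim

theorem equiv_zpow {X Y : Type} [TopologicalSpace X] [TopologicalSpace Y] (h : X ≃ₜ X)
    (k : Y ≃ₜ Y) (g : X → Y) (hg : ∀ x, g (h x) = k (g x)) (i : ℤ) (x : X) :
    g ((h ^ i) x) = (k ^ i) (g x) := by
  have h1 : ∀ (n : ℕ) (x : X), g ((h ^ (n : ℤ)) x) = (k ^ (n : ℤ)) (g x) := by
    intro n
    induction n with
    | zero => intro x; rfl
    | succ n ih =>
      intro x
      rw [hom_iter, hom_iter, Function.iterate_succ_apply, Function.iterate_succ_apply,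
        ← hom_iter, ← hom_iter, ih (h x), hg]
  rcases le_total 0 i with hi | hi
  · obtain ⟨n, rfl⟩ := Int.eq_ofNat_of_zero_le hi
    exact h1 n x
  · obtain ⟨n, hn⟩ := Int.eq_ofNat_of_zero_le (neg_nonneg.2 hi)
    have hi' : i = -(n : ℤ) := by omega
    subst hi'
    have h2 := h1 n ((h ^ (-(n : ℤ))) x)
    have h3 : (h ^ (n : ℤ)) ((h ^ (-(n : ℤ))) x) = x := by
      have : (h ^ (n : ℤ) * h ^ (-(n : ℤ))) x = x := by
        rw [← _root_.zpow_add, add_neg_cancel, _root_.zpow_zero]; rfl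
      exact this
    rw [h3] at h2
    rw [h2]
    have : (k ^ (-(n : ℤ)) * k ^ (n : ℤ)) (g ((h ^ (-(n : ℤ))) x)) =
        g ((h ^ (-(n : ℤ))) x) := by
      rw [← _root_.zpow_add, neg_add_cancel, _root_.zpow_zero]; rfl
    exact this.symm

theorem cuntz_of_cz {A : Type} [CStarAlgebra A] [PartialOrder A] [StarOrderedRing A] {n : ℕ}
    {a b : Matrix (Fin n) (Fin n) A}
    (h : Cz (CStarMatrix.ofMatrix a : MM n A) (CStarMatrix.ofMatrix b : MM n A)) :
    CuntzLE a b := by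
  intro ε hε
  obtain ⟨x, hx⟩ := OSM.forall_of_cz h ε hε
  refine ⟨fun i j => x i j, fun i j => ?_⟩
  refine lt_of_le_of_lt ?_ hx
  exact CStarMatrix.norm_entry_le_norm (M := x * CStarMatrix.ofMatrix b * star x -
    CStarMatrix.ofMatrix a) (i := i) (j := j)

theorem faith {X : Type} [TopologicalSpace X] [CompactSpace X] [MulAction Zm X]
    [ContinuousConstSMul Zm X] {A : Type} [CStarAlgebra A] [PartialOrder A] [StarOrderedRing A]
    {ι : C(X, ℂ) →⋆ₐ[ℂ] A} {U : Zm →* unitary A} {E : A →L[ℂ] C(X, ℂ)} (h : IsCross ι U E)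
    {n : ℕ} (E' : Fin n → Fin n → MM n A →L[ℂ] C(X, ℂ)) (hE' : ∀ k l M, E' k l M = E (M k l))
    (b : MM n A) (hb : ∀ k, E' k k (star b * b) = 0) : b = 0 := by
  ext k l
  have h1 := hb l
  rw [hE'] at h1
  have h2 : (star b * b) l l = ∑ j, star (b j l) * b j l := by
    rw [CStarMatrix.mul_apply]
    rfl
  rw [h2, map_sum] at h1
  refine h.faithful _ ?_
  ext x
  have h3 : ∑ j, E (star (b j l) * b j l) x = 0 := by
    rw [← ContinuousMap.sum_apply, h1]; rfl
  have h4 := (Finset.sum_eq_zero_iff_of_nonneg (fun j _ => h.pos (b j l) x)).1 h3 k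
    (Finset.mem_univ k)
  exact h4

theorem main (hCORE : S_CORE) (hMARK : S_MARK) (hTRC : S_TRC) (hUNIV : S_UNIV)
    (X Y : Type) [MetricSpace X] [CompactSpace X] [MetricSpace Y] [CompactSpace Y] [Infinite Y]
    (h : X ≃ₜ X) (k : Y ≃ₜ Y) (g : C(X, Y)) (hgs : Function.Surjective g)
    (hg : ∀ x, g (h x) = k (g x)) (hk : IsMinimal k) (A : Type) [CStarAlgebra A]
    (ι : C(X, ℂ) →⋆ₐ[ℂ] A) (u : A) (hA : IsCrossedProduct h ι u) : rc A ≤ mdim h / 2 := by
  letI aX := zact h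
  letI aY := zact k
  haveI cX : ContinuousConstSMul Zm X := zact_cont h
  haveI cY : ContinuousConstSMul Zm Y := zact_cont k
  have hM : HasMarks X := hMARK X Y g (fun z x => equiv_zpow h k g hg _ x) (by
    intro y
    have := hk y
    refine this.mono ?_
    rintro _ ⟨i, rfl⟩
    exact ⟨zt i, rfl⟩)
  haveI : Nonempty X := by
    obtain ⟨y⟩ := (inferInstance : Nonempty Y)
    obtain ⟨x, -⟩ := hgs y
    exact ⟨x⟩
  obtain ⟨U, E, -, hX⟩ := hUNIV t_EX X h A ι u hA
  letI := CStarAlgebra.spectralOrder A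
  haveI := CStarAlgebra.spectralOrderedRing A
  refine le_of_forall_gt_imp_ge_of_dense fun c hc => ?_
  rcases eq_or_ne c ⊤ with rfl | hct
  · exact le_top
  lift c to ℝ≥0 using hct
  have h2 : mdim h < 2 * (c : ℝ≥0∞) := by
    rw [mul_comm]
    exact (ENNReal.div_lt_iff (Or.inl (by norm_num)) (Or.inl (by norm_num))).1 hc
  obtain ⟨D, hD1, hD2⟩ := ENNReal.lt_iff_exists_nnreal_btwn.1 h2
  have hD3 : (D : ℝ) < 2 * (c : ℝ) := by exact_mod_cast hD2
  have hmd : MdimLT X (D : ℝ) := mdimLT h (by rwa [ENNReal.ofReal_coe_nnreal])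
  refine sInf_le ⟨c, rfl, fun n a b ha hb hr => ?_⟩
  rcases Nat.eq_zero_or_pos n with rfl | hn
  · intro ε hε
    exact ⟨0, fun i => i.elim0⟩
  obtain ⟨ι', u', e', E', hE', hEE⟩ := t_MC Zm X A ι U E n hn hX
  obtain ⟨pa, pb, hpos⟩ := hTRC X A ι U E hX n a b c ha hb hr
  refine cuntz_of_cz (hCORE X (MM n A) n ι' u' e' E' hE' (fun b hb => faith hX E' hEE b hb) hM D c
    hmd hD3 _ _ pa pb ?_)
  intro Λ hΛ ε hε
  exact hpos E' hEE Λ hΛ ε hε

end

end Pool.Agent.H252.MD
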