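import Pool.Agent.H252.MD.Core
import Pool.Agent.H252.MD.Final
import Pool.Agent.H388.MD_OMEGA
import Pool.Agent.H658.MD_MARK
import Pool.Agent.H870.MD.MD_MD
import Pool.Agent.H410.MD_COV
import Pool.Agent.H30.MD.MD_GEN
import Pool.Agent.H378.MD_PP
import Pool.Agent.H860.MD_CPT
import Pool.Agent.H263.MD_IND
import Pool.Agent.H115.MD_SPL
import Pool.Agent.H353.MD_SPC
import Pool.Agent.H980.MD.PPW
import Pool.Agent.H980.MD.BLK
import Pool.Agent.H200.MD.POSF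
import Pool.Agent.H947.MD_VEL
import Pool.Agent.H196.MD_APP
import Pool.Agent.H106.MD_GAP
import Pool.Agent.H747.MD_RG
import Pool.Agent.H597.MD_LIPW
import Pool.Agent.H127.MD_TRC
import Pool.Agent.H190.MD_UNIV

/-!
# Assembly
-/

set_option autoImplicit false

namespace Pool.Agent.H252.MD

open scoped ENNReal

theorem t_CORE : S_CORE :=
  core Pool.Agent.H388.MDO.s_OMEGA Pool.Agent.H870.MD.s_MD Pool.Agent.H410.MDCOV.s_COV
    Pool.Agent.H30.MD.s_GEN Pool.Agent.H263.s_IND Pool.Agent.H378.MDPP.s_PP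
    Pool.Agent.H860.MD.s_CPT Pool.Agent.H115.MDSPL.s_SPL Pool.Agent.H353.MDSPC.s_SPC
    Pool.Agent.H980.MD.s_PPW Pool.Agent.H200.MD.s_POSF Pool.Agent.H980.MD.s_BLK
    Pool.Agent.H947.MDVEL.s_VEL Pool.Agent.H196.MDAPP.s_APP Pool.Agent.H106.MDGAP.s_GAP
    Pool.Agent.H747.MDRG.s_RG Pool.Agent.H597.MDLIPW.s_LIPW

theorem rc_le (X Y : Type) [MetricSpace X] [CompactSpace X] [MetricSpace Y] [CompactSpace Y]
    [Infinite Y] (h : X ≃ₜ X) (k : Y ≃ₜ Y) (g : C(X, Y)) (hgs : Function.Surjective g)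
    (hg : ∀ x, g (h x) = k (g x)) (hk : IsMinimal k) (A : Type) [CStarAlgebra A]
    (ι : C(X, ℂ) →⋆ₐ[ℂ] A) (u : A) (hA : IsCrossedProduct h ι u) :
    rc A ≤ mdim h / 2 ∧ rc A ≤ 1 + 36 * mdim h := by
  have h1 : rc A ≤ mdim h / 2 :=
    main t_CORE Pool.Agent.H658.MD.s_MARK Pool.Agent.H127.MDTRC.s_TRC Pool.Agent.H190.MD.s_UNIV
      X Y h k g hgs hg hk A ι u hA
  refine ⟨h1, h1.trans ?_⟩
  have h2 : mdim h / 2 ≤ mdim h := ENNReal.half_le_self
  have h3 : mdim h ≤ 36 * mdim h := by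
    calc mdim h = 1 * mdim h := (one_mul _).symm
      _ ≤ 36 * mdim h := by gcongr; norm_num
  exact (h2.trans h3).trans le_add_self

end Pool.Agent.H252.MD
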