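import Pool.Agent.H252.MD.Cuntz

/-!
# Assembly, part 1: from the kernel condition to Cuntz comparison
-/

set_option autoImplicit false

namespace Pool.Agent.H252.MD

open Filter Topology Matrix
open Pool.Agent.H107ZS Pool.Agent.H327R4.Pure
open scoped CStarAlgebra ComplexOrder

noncomputable section

section

variable {X : Type} [TopologicalSpace X] [CompactSpace X] [MulAction Zm X]
  [ContinuousConstSMul Zm X] {B : Type} [CStarAlgebra B] {n : ℕ}
  {ι : C(X, ℂ) →⋆ₐ[ℂ] B} {u : Zm →* unitary B} {e : Fin n → Fin n → B}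
  {E : Fin n → Fin n → B →L[ℂ] C(X, ℂ)}

/-- the facts of `S_SPL` -/
structure SplF (ι : C(X, ℂ) →⋆ₐ[ℂ] B) (u : Zm →* unitary B)
    (E : Fin n → Fin n → B →L[ℂ] C(X, ℂ)) : Prop where
  mul : ∀ x (b d : B), SplitAt u E b x → SplitAt u E d x → SplitAt u E (b * d) x
  Wmul : ∀ x (b d : B) (Λ : ℕ), SplitAt u E b x → SplitAt u E b (zt (Λ : ℤ) • x) →
    W u E (b * d) Λ x = W u E b Λ x * W u E d Λ x
  star : ∀ x (b : B), SplitAt u E b x → SplitAt u E (star b) x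
  Wstar : ∀ x (b : B) (Λ : ℕ), W u E (Star.star b) Λ x = (W u E b Λ x)ᴴ
  lin : ∀ x (b d : B) (c : ℂ), SplitAt u E b x → SplitAt u E d x → SplitAt u E (c • b + d) x
  cfc : ∀ x (b : B) (f : ℝ → ℝ), Continuous f → IsSelfAdjoint b → SplitAt u E b x →
    SplitAt u E (cfc f b) x
  tr : ∀ x (b : B) (m : ℤ) (i j : ℤ) (k l : Fin n),
    E k l (Star.star (u (zt (m + i)) : B) * b * (u (zt (m + j)) : B)) x =
      E k l (Star.star (u (zt i) : B) * b * (u (zt j) : B)) (zt m • x)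
  W1 : ∀ x (Λ : ℕ), W u E (1 : B) Λ x = 1
  iota : ∀ x (f : C(X, ℂ)), SplitAt u E (ι f) x
  Wiota : ∀ x (f : C(X, ℂ)) (Λ : ℕ), W u E (ι f) Λ x =
    Matrix.diagonal fun p : Fin n × Fin Λ => f (zt ((p.2 : ℕ) : ℤ) • x)
  bd : ∀ x (b : B) (Λ : ℕ) (k l), ‖W u E b Λ x k l‖ ≤ ‖b‖
  cont : ∀ (b : B) (Λ : ℕ), Continuous (W u E b Λ)
  Wlin : ∀ (Λ : ℕ) x (b d : B) (c : ℂ), W u E (c • b + d) Λ x = c • W u E b Λ x + W u E d Λ x
  psd : ∀ (Λ : ℕ) x (b : B), (W u E (Star.star b * b) Λ x).PosSemidef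

theorem splF (h : S_SPL) (hE : IsMCross ι u e E) : SplF ι u E := by
  obtain ⟨h1, h2, h3, h4, h5, h6, h7, h8, h9, h10, h11, h12, h13, h14⟩ := h X B n ι u e E hE
  exact ⟨h1, h2, h3, h4, h5, h6, h7, h8, h9, h10, h11, h12, h13, h14⟩

variable (s : SplF ι u E)
include s

theorem SplF.one (x : X) : SplitAt u E (1 : B) x := by
  have := s.iota x 1
  rwa [map_one] at this

theorem SplF.zero (x : X) : SplitAt u E (0 : B) x := by
  have := s.iota x 0
  rwa [map_zero] at this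

theorem SplF.add {x : X} {b d : B} (hb : SplitAt u E b x) (hd : SplitAt u E d x) :
    SplitAt u E (b + d) x := by
  have := s.lin x b d 1 hb hd
  rwa [one_smul] at this

theorem SplF.smul {x : X} {b : B} (c : ℂ) (hb : SplitAt u E b x) : SplitAt u E (c • b) x := by
  have := s.lin x b 0 c hb (s.zero x)
  rwa [add_zero] at this

theorem SplF.Wadd (Λ : ℕ) (x : X) (b d : B) :
    W u E (b + d) Λ x = W u E b Λ x + W u E d Λ x := by
  have := s.Wlin Λ x b d 1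
  rwa [one_smul, one_smul] at this

theorem SplF.W0 (Λ : ℕ) (x : X) : W u E (0 : B) Λ x = 0 := by
  have := s.Wiota x 0 Λ
  rw [map_zero] at this
  rw [this]
  ext p q
  simp [Matrix.diagonal_apply]

theorem SplF.Wsmul (Λ : ℕ) (x : X) (b : B) (c : ℂ) :
    W u E (c • b) Λ x = c • W u E b Λ x := by
  have := s.Wlin Λ x b 0 c
  rwa [add_zero, s.W0, add_zero] at this

theorem SplF.dec (φ : C(X, ℝ)) (b : B) (hb : ∀ x, φ x = 1 → SplitAt u E b x) :
    Dec φ (fun Λ => W u E b Λ) := by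
  intro i j x hi hj h0 h1 h2
  refine ⟨fun k l a t => rfl, fun k l a t => ?_, fun k l a t => ⟨?_, ?_⟩⟩
  · have := s.tr x b (i : ℤ) ((a : ℕ) : ℤ) ((t : ℕ) : ℤ) k l
    simp only [W, Fin.val_natAdd, Nat.cast_add]
    exact this
  · have := (hb _ h1 (t : ℕ) ((a : ℕ) - (i : ℤ)) (by positivity)
      (by have := a.2; omega) k l).2
    rw [← s.tr x b (i : ℤ) ((a : ℕ) - (i : ℤ)) ((t : ℕ) : ℤ) k l] at this
    simp only [W, Fin.val_natAdd, Fin.val_castAdd, Nat.cast_add]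
    rwa [add_sub_cancel] at this
  · have := (hb _ h1 (t : ℕ) ((a : ℕ) - (i : ℤ)) (by positivity)
      (by have := a.2; omega) k l).1
    rw [← s.tr x b (i : ℤ) ((t : ℕ) : ℤ) ((a : ℕ) - (i : ℤ)) k l] at this
    simp only [W, Fin.val_natAdd, Fin.val_castAdd, Nat.cast_add]
    rwa [add_sub_cancel] at this

end

section

variable {X : Type} [TopologicalSpace X] [CompactSpace X] [MulAction Zm X]
  [ContinuousConstSMul Zm X] {B : Type} [CStarAlgebra B] [PartialOrder B] [StarOrderedRing B]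
  {n : ℕ} {ι : C(X, ℂ) →⋆ₐ[ℂ] B} {u : Zm →* unitary B} {e : Fin n → Fin n → B}
  {E : Fin n → Fin n → B →L[ℂ] C(X, ℂ)}

theorem W_psd (s : SplF ι u E) {b : B} (hb : 0 ≤ b) (Λ : ℕ) (x : X) :
    (W u E b Λ x).PosSemidef := by
  obtain ⟨d, rfl⟩ := CStarAlgebra.nonneg_iff_eq_star_mul_self.1 hb
  exact s.psd Λ x d

/-- from the kernel condition to Cuntz comparison -/
theorem final_cz (hSPL : S_SPL) (hCPT : S_CPT) (hBLK : S_BLK) (hPOSF : S_POSF) (hVEL : S_VEL)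
    (hE : IsMCross ι u e E) (hF : ∀ b : B, (∀ k, E k k (star b * b) = 0) → b = 0)
    {φ : C(X, ℝ)} {N L : ℕ} (hφ : Mark φ N L) {α β : B} (hα : 0 ≤ α) (hβ : 0 ≤ β)
    (sα : ∀ x, φ x = 1 → SplitAt u E α x) (sβ : ∀ x, φ x = 1 → SplitAt u E β x)
    (c : (L : ℕ) → Matrix (Fin n × Fin L) (Fin n × Fin L) ℂ)
    (hc : ∀ Λ : ℕ, 1 ≤ Λ → Λ ≤ L → ∀ x, φ x = 1 → φ (zt (Λ : ℤ) • x) = 1 →
      ∀ ξ : Fin n × Fin Λ → ℂ,
        W u E β Λ x *ᵥ (vW φ c x Λ *ᵥ (W u E α Λ x *ᵥ ξ)) = 0 → W u E α Λ x *ᵥ ξ = 0) :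
    Cz α β := by
  have s := splF hSPL hE
  obtain ⟨v, sv, hv⟩ := hVEL X B n ι u e E hE φ L c
  have hαs : star α = α := hα.isSelfAdjoint.star_eq
  have hβs : star β = β := hβ.isSelfAdjoint.star_eq
  refine cz_of_ineq (v := v) hα hβ fun θ hθ => ?_
  -- the constants for the different lengths
  have key : ∀ Λ : ℕ, ∃ C : ℝ, 0 ≤ C ∧ (1 ≤ Λ → Λ ≤ L → ∀ x, φ x = 1 →
      φ (zt (Λ : ℤ) • x) = 1 →
      ((θ : ℂ) • (1 : Matrix (Fin n × Fin Λ) (Fin n × Fin Λ) ℂ) + (C : ℂ) •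
        (W u E α Λ x * (W u E v Λ x)ᴴ * W u E β Λ x * W u E v Λ x * W u E α Λ x) -
        W u E α Λ x * W u E α Λ x).PosSemidef) := by
    intro Λ
    by_cases hΛ : 1 ≤ Λ ∧ Λ ≤ L
    · have hK : IsCompact {x : X | φ x = 1 ∧ φ (zt (Λ : ℤ) • x) = 1} := by
        refine IsClosed.isCompact ?_
        exact (isClosed_eq φ.continuous continuous_const).inter
          (isClosed_eq (φ.continuous.comp (continuous_const_smul _)) continuous_const)
      obtain ⟨C, hC, h⟩ := hCPT X (Fin n × Fin Λ) (W u E α Λ) (W u E β Λ) (W u E v Λ) _ hK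
        (s.cont α Λ) (s.cont β Λ) (s.cont v Λ)
        (fun x _ => by
          have := s.Wstar x α Λ
          rw [hαs] at this
          exact this.symm)
        (fun x _ => W_psd s hβ Λ x)
        (fun x hx ξ h => hc Λ hΛ.1 hΛ.2 x hx.1 hx.2 ξ (by
          rwa [hv Λ hΛ.1 hΛ.2 x hx.1 hx.2] at h)) θ hθ
      exact ⟨C, hC, fun _ _ x h1 h2 => h x ⟨h1, h2⟩⟩
    · exact ⟨0, le_rfl, fun h1 h2 => absurd ⟨h1, h2⟩ hΛ⟩
  choose Cf hCf0 hCf using key
  set C : ℝ := ∑ Λ ∈ Finset.range (L + 1), Cf Λ with hCdef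
  have hCle : ∀ Λ ≤ L, Cf Λ ≤ C := fun Λ hΛ =>
    Finset.single_le_sum (f := Cf) (fun i _ => hCf0 i) (Finset.mem_range.2 (by omega))
  have hC0 : 0 ≤ C := Finset.sum_nonneg fun i _ => hCf0 i
  refine ⟨C, hC0, ?_⟩
  set Z : B := α * star v * β * v * α with hZ
  have hZs : star Z = Z := by
    rw [hZ]
    simp only [star_mul, star_star, hαs, hβs, mul_assoc]
  set T : B := (-1 : ℂ) • (α * α) + ((C : ℂ) • Z + (θ : ℂ) • (1 : B)) with hT
  have hTeq : algebraMap ℝ B θ + C • Z - α * α = T := by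
    rw [hT, Algebra.algebraMap_eq_smul_one]
    have e1 : (C : ℂ) • Z = C • Z := by
      rw [Complex.coe_smul]
    have e2 : (θ : ℂ) • (1 : B) = θ • (1 : B) := by
      rw [Complex.coe_smul]
    rw [e1, e2, neg_one_smul]
    abel
  rw [← sub_nonneg, hTeq]
  have hTs : IsSelfAdjoint T := by
    rw [← hTeq]
    have a1 : IsSelfAdjoint (algebraMap ℝ B θ) := IsSelfAdjoint.algebraMap B (IsSelfAdjoint.all θ)
    have a2 : IsSelfAdjoint (C • Z) := by
      show star (C • Z) = C • Z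
      rw [star_smul, star_trivial, hZs]
    have a3 : IsSelfAdjoint (α * α) := by
      show star (α * α) = α * α
      rw [star_mul, hαs]
    exact (a1.add a2).sub a3
  have sZ : ∀ x, φ x = 1 → SplitAt u E Z x := fun x hx =>
    s.mul x _ _ (s.mul x _ _ (s.mul x _ _ (s.mul x _ _ (sα x hx) (s.star x v (sv x hx)))
      (sβ x hx)) (sv x hx)) (sα x hx)
  have sT : ∀ x, φ x = 1 → SplitAt u E T x := fun x hx =>
    s.add (s.smul _ (s.mul x _ _ (sα x hx) (sα x hx)))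
      (s.add (s.smul _ (sZ x hx)) (s.smul _ (s.one x)))
  refine hPOSF X B n ι u e E hE hF T hTs ?_
  refine hBLK hSPL X B n ι u e E hE φ N L hφ T sT ?_
  intro Λ h1 h2 x hx hx'
  have w1 : W u E (α * α) Λ x = W u E α Λ x * W u E α Λ x :=
    s.Wmul x _ _ Λ (sα x hx) (sα _ hx')
  have w2 : W u E Z Λ x =
      W u E α Λ x * (W u E v Λ x)ᴴ * W u E β Λ x * W u E v Λ x * W u E α Λ x := by
    have m1 : ∀ y, φ y = 1 → SplitAt u E (α * star v) y := fun y hy =>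
      s.mul y _ _ (sα y hy) (s.star y v (sv y hy))
    have m2 : ∀ y, φ y = 1 → SplitAt u E (α * star v * β) y := fun y hy =>
      s.mul y _ _ (m1 y hy) (sβ y hy)
    have m3 : ∀ y, φ y = 1 → SplitAt u E (α * star v * β * v) y := fun y hy =>
      s.mul y _ _ (m2 y hy) (sv y hy)
    rw [hZ, s.Wmul x _ _ Λ (m3 x hx) (m3 _ hx'), s.Wmul x _ _ Λ (m2 x hx) (m2 _ hx'),
      s.Wmul x _ _ Λ (m1 x hx) (m1 _ hx'), s.Wmul x _ _ Λ (sα x hx) (sα _ hx'), s.Wstar]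
  have w3 : W u E T Λ x = ((θ : ℂ) • (1 : Matrix (Fin n × Fin Λ) (Fin n × Fin Λ) ℂ) +
      (Cf Λ : ℂ) • (W u E α Λ x * (W u E v Λ x)ᴴ * W u E β Λ x * W u E v Λ x * W u E α Λ x) -
        W u E α Λ x * W u E α Λ x) + ((C - Cf Λ : ℝ) : ℂ) • W u E Z Λ x := by
    rw [hT, s.Wadd, s.Wadd, s.Wsmul, s.Wsmul, s.Wsmul, s.W1, w1, w2]
    push_cast
    rw [sub_smul]
    module
  rw [w3]
  refine (hCf Λ h1 h2 x hx hx').add ?_
  have hZ0 : 0 ≤ Z := by
    have e1 : Z = (α * star v) * β * star (α * star v) := by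
      rw [hZ, star_mul, star_star, hαs]; simp only [mul_assoc]
    rw [e1]
    exact star_right_conjugate_nonneg hβ _
  refine (W_psd s hZ0 Λ x).smul ?_
  exact_mod_cast sub_nonneg.2 (hCle Λ h2)

end

end

end Pool.Agent.H252.MD
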