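import Pool.Agent.H252.MD.Asm1

/-!
# Assembly, part 2: the generic data
-/

set_option autoImplicit false
set_option linter.unusedSectionVars false

namespace Pool.Agent.H252.MD

open Filter Topology Matrix
open Pool.Agent.H107ZS Pool.Agent.H327R4.Pure
open scoped CStarAlgebra ComplexOrder

noncomputable section

section count

variable {X : Type} [TopologicalSpace X] [MulAction Zm X]

theorem zt_add (i j : ℤ) : zt (i + j) = zt i * zt j := rfl

theorem zt_zero : zt 0 = 1 := rfl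

theorem zt_smul_smul (i j : ℤ) (x : X) : zt i • zt j • x = zt (i + j) • x := by
  rw [zt_add, mul_smul]

theorem Mark.gap {φ : C(X, ℝ)} {N L : ℕ} (h : Mark φ N L) {x : X} {i j : ℤ} (hij : i < j)
    (hi : φ (zt i • x) ≠ 0) (hj : φ (zt j • x) ≠ 0) : i + N < j := by
  by_contra hcon
  push Not at hcon
  obtain ⟨m, hm⟩ : ∃ m : ℕ, (m : ℤ) = j - i := ⟨(j - i).toNat, by omega⟩
  have := h.sep (zt i • x) m (by omega) (by omega) hi
  rw [zt_smul_smul, hm] at this
  apply hj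
  rwa [sub_add_cancel] at this

theorem Mark.count {φ : C(X, ℝ)} {N L : ℕ} (h : Mark φ N L) (x : X) (l : ℕ) :
    ((Finset.range l).filter fun i : ℕ => φ (zt (i : ℤ) • x) ≠ 0).card ≤ (l + N) / (N + 1) := by
  classical
  set S := (Finset.range l).filter fun i : ℕ => φ (zt (i : ℤ) • x) ≠ 0 with hS
  have hinj : Set.InjOn (fun i : ℕ => i / (N + 1)) (S : Set ℕ) := by
    intro i hi j hj hij
    simp only at hij
    rw [hS, Finset.mem_coe, Finset.mem_filter] at hi hj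
    rcases lt_trichotomy i j with hlt | heq | hlt
    · have := h.gap (x := x) (i := i) (j := j) (by exact_mod_cast hlt) hi.2 hj.2
      have h2 : i + (N + 1) ≤ j := by omega
      have h3 : i / (N + 1) + 1 ≤ j / (N + 1) := by
        rw [← Nat.add_div_right i (Nat.succ_pos N)]
        exact Nat.div_le_div_right h2
      omega
    · exact heq
    · have := h.gap (x := x) (i := j) (j := i) (by exact_mod_cast hlt) hj.2 hi.2
      have h2 : j + (N + 1) ≤ i := by omega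
      have h3 : j / (N + 1) + 1 ≤ i / (N + 1) := by
        rw [← Nat.add_div_right j (Nat.succ_pos N)]
        exact Nat.div_le_div_right h2
      omega
  rw [← Finset.card_image_of_injOn hinj]
  have hsub : S.image (fun i : ℕ => i / (N + 1)) ⊆ Finset.range ((l + N) / (N + 1)) := by
    intro m hm
    rw [Finset.mem_image] at hm
    obtain ⟨i, hi, rfl⟩ := hm
    rw [hS, Finset.mem_filter, Finset.mem_range] at hi
    rw [Finset.mem_range]
    have h1 : i + 1 ≤ l := hi.1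
    have h2 : i / (N + 1) + 1 ≤ (l + N) / (N + 1) := by
      rw [← Nat.add_div_right i (Nat.succ_pos N)]
      exact Nat.div_le_div_right (by omega)
    omega
  exact (Finset.card_le_card hsub).trans (by rw [Finset.card_range])

theorem Mark.len {φ : C(X, ℝ)} {N L : ℕ} (h : Mark φ N L) {x : X} {Λ : ℕ} (hΛ : 0 < Λ)
    (h0 : φ x = 1) (h1 : φ (zt (Λ : ℤ) • x) = 1) : N < Λ := by
  have := h.gap (x := x) (i := 0) (j := Λ) (by exact_mod_cast hΛ)
    (by rw [zt_zero, one_smul, h0]; norm_num) (by rw [h1]; norm_num)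
  omega

/-- the functions on the window `[-m, l - m)` -/
def pw {J : ℕ} (q : Fin J → C(X, ℝ)) (φ : C(X, ℝ)) (m l : ℕ) :
    (Fin J × Fin l) ⊕ Fin l → X → ℝ
  | Sum.inl p, x => q p.1 (zt (((p.2 : ℕ) : ℤ) - m) • x)
  | Sum.inr i, x => φ (zt (((i : ℕ) : ℤ) - m) • x)

theorem pw_count {J : ℕ} {q : Fin J → C(X, ℝ)} {φ : C(X, ℝ)} {N L : ℕ} (h : Mark φ N L)
    (m l : ℕ) {D : ℝ}
    (hq : ∀ x, (((Finset.univ ×ˢ Finset.range l : Finset (Fin J × ℕ)).filter
      fun p => q p.1 (zt (p.2 : ℤ) • x) ≠ 0).card : ℝ) ≤ D) (x : X) :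
    (({i | pw q φ m l i x ≠ 0}.ncard : ℕ) : ℝ) ≤ D + ((l + N) / (N + 1) : ℕ) := by
  classical
  have e1 : {i | pw q φ m l i x ≠ 0} =
      Sum.inl '' {p : Fin J × Fin l | q p.1 (zt (((p.2 : ℕ) : ℤ) - m) • x) ≠ 0} ∪
      Sum.inr '' {i : Fin l | φ (zt (((i : ℕ) : ℤ) - m) • x) ≠ 0} := by
    ext i
    rcases i with p | i
    · simp [pw]
    · simp [pw]
  have e2 : {i | pw q φ m l i x ≠ 0}.ncard ≤
      {p : Fin J × Fin l | q p.1 (zt (((p.2 : ℕ) : ℤ) - m) • x) ≠ 0}.ncard +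
      {i : Fin l | φ (zt (((i : ℕ) : ℤ) - m) • x) ≠ 0}.ncard := by
    rw [e1]
    refine (Set.ncard_union_le _ _).trans ?_
    rw [Set.ncard_image_of_injective _ Sum.inl_injective,
      Set.ncard_image_of_injective _ Sum.inr_injective]
  have e3 : {p : Fin J × Fin l | q p.1 (zt (((p.2 : ℕ) : ℤ) - m) • x) ≠ 0}.ncard ≤
      ((Finset.univ ×ˢ Finset.range l : Finset (Fin J × ℕ)).filter
        fun p => q p.1 (zt (p.2 : ℤ) • zt (-(m : ℤ)) • x) ≠ 0).card := by
    rw [← Set.ncard_coe_finset]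
    refine Set.ncard_le_ncard_of_injOn (fun p : Fin J × Fin l => (p.1, (p.2 : ℕ))) ?_ ?_
      (Finset.finite_toSet _)
    · intro p hp
      rw [Finset.mem_coe, Finset.mem_filter]
      refine ⟨by simp, ?_⟩
      simp only [zt_smul_smul]
      exact hp
    · intro p _ p' _ hpp
      simp only [Prod.mk.injEq] at hpp
      exact Prod.ext hpp.1 (Fin.ext hpp.2)
  have e4 : {i : Fin l | φ (zt (((i : ℕ) : ℤ) - m) • x) ≠ 0}.ncard ≤
      ((Finset.range l).filter fun i : ℕ => φ (zt (i : ℤ) • zt (-(m : ℤ)) • x) ≠ 0).card := by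
    rw [← Set.ncard_coe_finset]
    refine Set.ncard_le_ncard_of_injOn (fun i : Fin l => (i : ℕ)) ?_ ?_ (Finset.finite_toSet _)
    · intro p hp
      rw [Finset.mem_coe, Finset.mem_filter]
      refine ⟨by simp, ?_⟩
      simp only [zt_smul_smul]
      exact hp
    · intro p _ p' _ hpp
      exact Fin.ext hpp
  have e5 := h.count (zt (-(m : ℤ)) • x) l
  have e6 := hq (zt (-(m : ℤ)) • x)
  have e7 : ({i | pw q φ m l i x ≠ 0}.ncard : ℝ) ≤
      (((Finset.univ ×ˢ Finset.range l : Finset (Fin J × ℕ)).filter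
        fun p => q p.1 (zt (p.2 : ℤ) • zt (-(m : ℤ)) • x) ≠ 0).card : ℝ) +
      ((l + N) / (N + 1) : ℕ) := by
    exact_mod_cast e2.trans (add_le_add e3 (e4.trans e5))
  linarith

end count

section

variable {X : Type} [TopologicalSpace X] [CompactSpace X] [MulAction Zm X]
  [ContinuousConstSMul Zm X] {B : Type} [CStarAlgebra B] [PartialOrder B] [StarOrderedRing B]
  {n : ℕ} {ι : C(X, ℂ) →⋆ₐ[ℂ] B} {u : Zm →* unitary B} {e : Fin n → Fin n → B}
  {E : Fin n → Fin n → B →L[ℂ] C(X, ℂ)}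

/-- the cut-off function as an element -/
def gB (ι : C(X, ℂ) →⋆ₐ[ℂ] B) (φ : C(X, ℝ)) (R : ℕ) : B := ι (toC (gam φ R))

/-- the complementary function -/
def GB (ι : C(X, ℂ) →⋆ₐ[ℂ] B) (φ : C(X, ℝ)) (R : ℕ) : B := ι (toC (1 - gam φ R))

omit [PartialOrder B] [StarOrderedRing B] [MulAction Zm X] [ContinuousConstSMul Zm X] in
theorem toC_star (f : C(X, ℝ)) : star (toC f) = toC f := by
  ext x
  simp [toC]

omit [PartialOrder B] [StarOrderedRing B] in
theorem gB_star (φ : C(X, ℝ)) (R : ℕ) : star (gB ι φ R) = gB ι φ R := by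
  unfold gB
  rw [← map_star, toC_star]

omit [PartialOrder B] [StarOrderedRing B] in
theorem GB_star (φ : C(X, ℝ)) (R : ℕ) : star (GB ι φ R) = GB ι φ R := by
  unfold GB
  rw [← map_star, toC_star]

omit [PartialOrder B] [StarOrderedRing B] in
theorem gB_add (φ : C(X, ℝ)) (R : ℕ) : gB ι φ R + GB ι φ R = 1 := by
  unfold gB GB
  rw [← map_add, ← map_one ι]
  congr 1
  ext x
  simp [toC]

/-- the element `α` -/
def alB (ι : C(X, ℂ) →⋆ₐ[ℂ] B) (φ : C(X, ℝ)) (R : ℕ) (a : B) (ε : ℝ) : B :=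
  cut ε (gB ι φ R * a * gB ι φ R) + GB ι φ R * GB ι φ R

/-- the element `β` -/
def beB (ι : C(X, ℂ) →⋆ₐ[ℂ] B) (φ : C(X, ℝ)) (R : ℕ) (b : B) (κ : ℝ) : B :=
  cut κ (gB ι φ R * b * gB ι φ R)

theorem conj_nonneg {g a : B} (hg : star g = g) (ha : 0 ≤ a) : 0 ≤ g * a * g := by
  have := star_right_conjugate_nonneg ha g
  rwa [hg] at this

theorem alB_nonneg (φ : C(X, ℝ)) (R : ℕ) {a : B} (ha : 0 ≤ a) (ε : ℝ) :
    0 ≤ alB ι φ R a ε := by
  refine add_nonneg ((ct' B _ (conj_nonneg (gB_star φ R) ha)).1 ε) ?_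
  have := star_mul_self_nonneg (GB ι φ R)
  rwa [GB_star] at this

theorem beB_nonneg (φ : C(X, ℝ)) (R : ℕ) {b : B} (hb : 0 ≤ b) (κ : ℝ) :
    0 ≤ beB ι φ R b κ := (ct' B _ (conj_nonneg (gB_star φ R) hb)).1 κ

/-- splitting of `(γ b γ - κ)₊` -/
theorem beB_split (hSPL : S_SPL) (hSPC : S_SPC) (hPPW : S_PPW) (hE : IsMCross ι u e E)
    {φ : C(X, ℝ)} {N L R : ℕ} (hφ : Mark φ N L) (hR : 2 * R ≤ N) {b : B} (hb : 0 ≤ b)
    (hP : Prp ι u e (Kb R) b) {κ : ℝ} (hκ : 0 ≤ κ) :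
    ∀ x, φ x = 1 → SplitAt u E (beB ι φ R b κ) x := by
  intro x hx
  have s := splF hSPL hE
  have h1 := ((hSPC X B n ι u e E hE).2 φ N L R hφ hR).2 b hP
  have hsa : IsSelfAdjoint (gB ι φ R * b * gB ι φ R) :=
    (conj_nonneg (gB_star φ R) hb).isSelfAdjoint
  have h3 := h1 x hx
  unfold beB
  rw [TDOM.cut_eq _ hκ]
  exact s.cfc x _ _ (by fun_prop) hsa h3

theorem GG_eq (φ : C(X, ℝ)) (R : ℕ) :
    GB ι φ R * GB ι φ R = ι (toC ((1 - gam φ R) * (1 - gam φ R))) := by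
  unfold GB
  rw [← map_mul]
  congr 1
  ext x
  simp [toC]

theorem alB_split (hSPL : S_SPL) (hSPC : S_SPC) (hPPW : S_PPW) (hE : IsMCross ι u e E)
    {φ : C(X, ℝ)} {N L R : ℕ} (hφ : Mark φ N L) (hR : 2 * R ≤ N) {a : B} (ha : 0 ≤ a)
    (hP : Prp ι u e (Kb R) a) {ε : ℝ} (hε : 0 ≤ ε) :
    ∀ x, φ x = 1 → SplitAt u E (alB ι φ R a ε) x := by
  intro x hx
  have s := splF hSPL hE
  have h1 := beB_split (ι := ι) hSPL hSPC hPPW hE hφ hR ha hP hε x hx
  refine s.add h1 ?_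
  rw [GG_eq]
  exact s.iota x _

end

end

end Pool.Agent.H252.MD
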