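import Pool.Agent.H252.MD.Asm2

/-!
# Assembly, part 3: the generic data
-/

set_option autoImplicit false
set_option linter.unusedSectionVars false

namespace Pool.Agent.H252.MD

open Filter Topology Matrix
open Pool.Agent.H107ZS Pool.Agent.H327R4.Pure
open scoped CStarAlgebra ComplexOrder

noncomputable section

section

variable {X : Type} [TopologicalSpace X] [CompactSpace X] [MulAction Zm X]
  [ContinuousConstSMul Zm X]

theorem matrix_rank_add_le {N : Type} [Fintype N] [DecidableEq N] (A B : Matrix N N ℂ) :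
    (A + B).rank ≤ A.rank + B.rank := by
  unfold Matrix.rank
  rw [Matrix.mulVecLin_add]
  refine le_trans (Submodule.finrank_mono ?_)
    (Submodule.finrank_add_le_finrank_add_finrank (LinearMap.range A.mulVecLin)
      (LinearMap.range B.mulVecLin))
  rintro _ ⟨x, rfl⟩
  exact Submodule.add_mem_sup ⟨x, rfl⟩ ⟨x, rfl⟩

theorem gam_apply (φ : C(X, ℝ)) (R : ℕ) (x : X) :
    gam φ R x = 1 - ∑ i ∈ Finset.Icc (-(R : ℤ)) R, φ (zt i • x) := by
  unfold gam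
  rw [ContinuousMap.sub_apply, ContinuousMap.sum_apply]
  rfl

theorem gam_diff {φ : C(X, ℝ)} {R : ℕ} {x y : X} {ρ : ℝ} {lo hi p : ℤ}
    (h : ∀ i : ℤ, lo ≤ i → i ≤ hi → |φ (zt i • x) - φ (zt i • y)| ≤ ρ) (h1 : lo ≤ p - R)
    (h2 : p + R ≤ hi) : |gam φ R (zt p • x) - gam φ R (zt p • y)| ≤ (2 * R + 1) * ρ := by
  rw [gam_apply, gam_apply]
  have e1 : (1 - ∑ i ∈ Finset.Icc (-(R : ℤ)) R, φ (zt i • zt p • x)) -
      (1 - ∑ i ∈ Finset.Icc (-(R : ℤ)) R, φ (zt i • zt p • y)) =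
      ∑ i ∈ Finset.Icc (-(R : ℤ)) R, (φ (zt (i + p) • y) - φ (zt (i + p) • x)) := by
    rw [Finset.sum_sub_distrib]
    simp only [zt_smul_smul]
    ring
  rw [e1]
  refine (Finset.abs_sum_le_sum_abs _ _).trans ?_
  have e2 : ∀ i ∈ Finset.Icc (-(R : ℤ)) R, |φ (zt (i + p) • y) - φ (zt (i + p) • x)| ≤ ρ := by
    intro i hi
    rw [Finset.mem_Icc] at hi
    rw [abs_sub_comm]
    exact h (i + p) (by omega) (by omega)
  refine (Finset.sum_le_card_nsmul _ _ _ e2).trans ?_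
  rw [Int.card_Icc, nsmul_eq_mul]
  have : (((R : ℤ) + 1 - -(R : ℤ)).toNat : ℝ) = 2 * R + 1 := by
    have h3 : ((R : ℤ) + 1 - -(R : ℤ)).toNat = 2 * R + 1 := by omega
    rw [h3]; push_cast; ring
  rw [this]

variable {B : Type} [CStarAlgebra B] [PartialOrder B] [StarOrderedRing B]
  {n : ℕ} {ι : C(X, ℂ) →⋆ₐ[ℂ] B} {u : Zm →* unitary B} {e : Fin n → Fin n → B}
  {E : Fin n → Fin n → B →L[ℂ] C(X, ℂ)}

theorem W_alB (s : SplF ι u E) (φ : C(X, ℝ)) (R : ℕ) (a : B) (ε : ℝ) (Λ : ℕ) (x : X) :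
    W u E (alB ι φ R a ε) Λ x = W u E (cut ε (gB ι φ R * a * gB ι φ R)) Λ x +
      Matrix.diagonal fun p : Fin n × Fin Λ =>
        ((((1 - gam φ R) * (1 - gam φ R)) (zt ((p.2 : ℕ) : ℤ) • x) : ℝ) : ℂ) := by
  unfold alB
  rw [s.Wadd, GG_eq, s.Wiota]
  rfl

theorem gen_data (hSPL : S_SPL) (hSPC : S_SPC) (hPPW : S_PPW) (hPP : S_PP) (hLIPW : S_LIPW)
    (hCOV : S_COV) (hE : IsMCross ι u e E) {φ : C(X, ℝ)} {N L R : ℕ} (hφ : Mark φ N L)
    (hR : 2 * R ≤ N) {J : ℕ} {q : Fin J → C(X, ℝ)} (hq0 : ∀ j x, 0 ≤ q j x)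
    (hq1 : ∀ j x, q j x ≤ 1) {n₀ : ℕ} {C₁ : ℝ} (hC₁ : 0 ≤ C₁) {a b : B} (ha : 0 ≤ a)
    (hb : 0 ≤ b) (la : QLoc u E q n₀ C₁ a) (lb : QLoc u E q n₀ C₁ b)
    (pa : Prp ι u e (Kb R) a) (pb : Prp ι u e (Kb R) b) {ε κ : ℝ} (hε : 0 ≤ ε) (hκ : 0 ≤ κ)
    (Λ D Δ m : ℕ) (hm : n₀ ≤ m) (hm' : R ≤ m) (hD : D < 2 * Δ)
    (hcount : ∀ x, {i | pw q φ m (Λ + 2 * m + 1) i x ≠ 0}.ncard ≤ D) {C₂ : ℝ}
    (hrank : ∀ x, φ x = 1 → φ (zt (Λ : ℤ) • x) = 1 →
      ∃ Q : Matrix (Fin n × Fin Λ) (Fin n × Fin Λ) ℂ, (∀ k l, ‖Q k l‖ ≤ C₂) ∧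
        IsStarProjection (Q * W u E (beB ι φ R b κ) Λ x) ∧
        (W u E (alB ι φ R a ε) Λ x).rank + Δ ≤ (Q * W u E (beB ι φ R b κ) Λ x).rank) :
    GenData φ (fun Λ => W u E (alB ι φ R a ε) Λ) (fun Λ => W u E (beB ι φ R b κ) Λ) Λ := by
  have s := splF hSPL hE
  obtain ⟨Ca, hCa, hLa⟩ := hLIPW hSPL hSPC hPPW hPP X B n ι u e E hE J q n₀ C₁ a hC₁
    ha.isSelfAdjoint la φ N L R hφ hR pa ε Λ hε
  obtain ⟨Cb, hCb, hLb⟩ := hLIPW hSPL hSPC hPPW hPP X B n ι u e E hE J q n₀ C₁ b hC₁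
    hb.isSelfAdjoint lb φ N L R hφ hR pb κ Λ hκ
  set X₀ : Set X := {x | φ x = 1 ∧ φ (zt (Λ : ℤ) • x) = 1} with hX₀
  obtain ⟨C₀, hC₀, hcov⟩ := hCOV X ((Fin J × Fin (Λ + 2 * m + 1)) ⊕ Fin (Λ + 2 * m + 1))
    (pw q φ m (Λ + 2 * m + 1)) D X₀ (by
      rintro (p | i) x
      · exact ⟨hq0 _ _, hq1 _ _⟩
      · exact ⟨hφ.nonneg _, hφ.le_one _⟩) (fun x _ => hcount x)
  set K : ℝ := Ca + 2 * (2 * R + 1) + Cb + 1 with hK
  have hRnn : (0 : ℝ) ≤ R := Nat.cast_nonneg R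
  have hK1 : 1 ≤ K := by rw [hK]; nlinarith
  have hK0 : 0 < K := by linarith
  -- closeness on windows
  have hwin : ∀ (x y : X) (ρ : ℝ), (∀ i, |pw q φ m (Λ + 2 * m + 1) i x -
      pw q φ m (Λ + 2 * m + 1) i y| ≤ ρ) →
      (∀ j, ∀ i : ℤ, -(m : ℤ) ≤ i → i ≤ Λ + m → |q j (zt i • x) - q j (zt i • y)| ≤ ρ) ∧
      (∀ i : ℤ, -(m : ℤ) ≤ i → i ≤ Λ + m → |φ (zt i • x) - φ (zt i • y)| ≤ ρ) := by
    intro x y ρ h
    refine ⟨fun j i h1 h2 => ?_, fun i h1 h2 => ?_⟩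
    · have h3 := h (Sum.inl (j, ⟨(i + m).toNat, by omega⟩))
      simp only [pw] at h3
      have h4 : (((i + m).toNat : ℕ) : ℤ) - m = i := by omega
      rw [h4] at h3
      exact h3
    · have h3 := h (Sum.inr ⟨(i + m).toNat, by omega⟩)
      simp only [pw] at h3
      have h4 : (((i + m).toNat : ℕ) : ℤ) - m = i := by omega
      rw [h4] at h3
      exact h3
  set CC : ℝ := C₀ * K ^ D + ‖alB ι φ R a ε‖ + ‖beB ι φ R b κ‖ + |C₂| + 1 with hCC
  have hp1 : 0 ≤ C₀ * K ^ D := by positivity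
  refine ⟨D, Δ, CC, hD, by positivity, ?_, ?_, ?_⟩
  · intro x _ _ k l
    refine ⟨(s.bd x _ Λ k l).trans ?_, (s.bd x _ Λ k l).trans ?_⟩
    · rw [hCC]
      have := norm_nonneg (beB ι φ R b κ)
      have := abs_nonneg C₂
      linarith
    · rw [hCC]
      have := norm_nonneg (alB ι φ R a ε)
      have := abs_nonneg C₂
      linarith
  · intro ρ hρ hρ1
    obtain ⟨F, hF, hFc, hFn⟩ := hcov (ρ / K) (by positivity)
      ((div_le_one hK0).2 (hρ1.trans hK1))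
    refine ⟨F, fun y hy => hF hy, ?_, ?_⟩
    · refine hFc.trans ?_
      have e1 : (1 / (ρ / K)) ^ D = K ^ D * (1 / ρ) ^ D := by
        rw [← mul_pow]
        congr 1
        field_simp
      rw [e1, ← mul_assoc]
      refine mul_le_mul_of_nonneg_right ?_ (by positivity)
      rw [hCC]
      have := norm_nonneg (beB ι φ R b κ)
      have := norm_nonneg (alB ι φ R a ε)
      have := abs_nonneg C₂
      linarith
    · intro x h0 h1
      obtain ⟨y, hy, hxy⟩ := hFn x ⟨h0, h1⟩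
      have hyX := hF hy
      obtain ⟨w1, w2⟩ := hwin x y (ρ / K) hxy
      have hρK : 0 ≤ ρ / K := by positivity
      have hρle : ρ / K ≤ ρ := div_le_self hρ.le hK1
      refine ⟨y, hy, fun i hi => (w2 i (by omega) (by omega)).trans hρle, fun k l => ⟨?_, ?_⟩⟩
      · change ‖W u E (alB ι φ R a ε) Λ x k l - W u E (alB ι φ R a ε) Λ y k l‖ ≤ ρ
        rw [W_alB s, W_alB s, Matrix.add_apply, Matrix.add_apply]
        have t1 := hLa x y (ρ / K) hρK h0 h1 hyX.1 hyX.2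
          (fun j i hi hi' => w1 j i (by omega) (by omega))
          (fun i hi hi' => w2 i (by omega) (by omega)) k l
        have t2 : ‖(Matrix.diagonal fun p : Fin n × Fin Λ =>
            ((((1 - gam φ R) * (1 - gam φ R)) (zt ((p.2 : ℕ) : ℤ) • x) : ℝ) : ℂ)) k l -
            (Matrix.diagonal fun p : Fin n × Fin Λ =>
            ((((1 - gam φ R) * (1 - gam φ R)) (zt ((p.2 : ℕ) : ℤ) • y) : ℝ) : ℂ)) k l‖ ≤
            2 * (2 * R + 1) * (ρ / K) := by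
          by_cases hkl : k = l
          · subst hkl
            rw [Matrix.diagonal_apply_eq, Matrix.diagonal_apply_eq, ← Complex.ofReal_sub,
              Complex.norm_real, Real.norm_eq_abs]
            have g1 := ((hSPC X B n ι u e E hE).2 φ N L R hφ hR).1
            have gx := g1 (zt ((k.2 : ℕ) : ℤ) • x)
            have gy := g1 (zt ((k.2 : ℕ) : ℤ) • y)
            have gd := gam_diff (φ := φ) (R := R) (x := x) (y := y) (ρ := ρ / K)
              (lo := -(m : ℤ)) (hi := Λ + m) (p := ((k.2 : ℕ) : ℤ)) w2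
              (by omega) (by have := k.2.2; omega)
            simp only [ContinuousMap.mul_apply, ContinuousMap.sub_apply, ContinuousMap.one_apply]
            set s1 := gam φ R (zt ((k.2 : ℕ) : ℤ) • x)
            set s2 := gam φ R (zt ((k.2 : ℕ) : ℤ) • y)
            have e1 : (1 - s1) * (1 - s1) - (1 - s2) * (1 - s2) = -((s1 - s2) * (2 - s1 - s2)) := by
              ring
            rw [e1, abs_neg, abs_mul]
            have h3 : |2 - s1 - s2| ≤ 2 := by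
              rw [abs_le]; constructor <;> linarith [gx.1, gx.2, gy.1, gy.2]
            calc |s1 - s2| * |2 - s1 - s2| ≤ ((2 * R + 1) * (ρ / K)) * 2 :=
                  mul_le_mul gd h3 (abs_nonneg _) (by positivity)
              _ = 2 * (2 * R + 1) * (ρ / K) := by ring
          · rw [Matrix.diagonal_apply_ne _ hkl, Matrix.diagonal_apply_ne _ hkl, sub_zero, norm_zero]
            positivity
        rw [add_sub_add_comm]
        refine (norm_add_le _ _).trans ((add_le_add t1 t2).trans ?_)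
        have e2 : Ca * (ρ / K) + 2 * (2 * R + 1) * (ρ / K) = (Ca + 2 * (2 * R + 1)) / K * ρ := by
          ring
        rw [e2]
        have e3 : (Ca + 2 * (2 * (R : ℝ) + 1)) / K ≤ 1 := by
          rw [div_le_one hK0, hK]; linarith
        calc (Ca + 2 * (2 * (R : ℝ) + 1)) / K * ρ ≤ 1 * ρ :=
              mul_le_mul_of_nonneg_right e3 hρ.le
          _ = ρ := one_mul ρ
      · have t1 := hLb x y (ρ / K) hρK h0 h1 hyX.1 hyX.2
          (fun j i hi hi' => w1 j i (by omega) (by omega))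
          (fun i hi hi' => w2 i (by omega) (by omega)) k l
        refine t1.trans ?_
        have e2 : Cb * (ρ / K) = Cb / K * ρ := by ring
        rw [e2]
        have e3 : Cb / K ≤ 1 := by
          rw [div_le_one hK0, hK]; nlinarith
        calc Cb / K * ρ ≤ 1 * ρ := mul_le_mul_of_nonneg_right e3 hρ.le
          _ = ρ := one_mul ρ
  · intro x h0 h1
    obtain ⟨Q, hQ, hQ1, hQ2⟩ := hrank x h0 h1
    refine ⟨Q, fun k l => (hQ k l).trans ?_, hQ1, hQ2⟩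
    rw [hCC]
    have := norm_nonneg (beB ι φ R b κ)
    have := norm_nonneg (alB ι φ R a ε)
    have := le_abs_self C₂
    linarith

/-- the rank gap for `α`, `β` -/
theorem rank_gap' (hSPL : S_SPL) (hSPC : S_SPC) (hPPW : S_PPW) (hPP : S_PP)
    (hE : IsMCross ι u e E) {φ : C(X, ℝ)} {N L R : ℕ} (hφ : Mark φ N L)
    (hR : 2 * R ≤ N) {a b : B} (ha : 0 ≤ a) (hb : 0 ≤ b)
    (pa : Prp ι u e (Kb R) a) (pb : Prp ι u e (Kb R) b) {ε κ δ C r : ℝ} (hε : 0 ≤ ε) (hr : 0 ≤ r)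
    (hκ : 0 < κ) (hδ : 4 * κ ≤ δ) {Λ : ℕ} {x : X} (h0 : φ x = 1)
    (h1 : φ (zt (Λ : ℤ) • x) = 1) {p q : Matrix (Fin n × Fin Λ) (Fin n × Fin Λ) ℂ}
    (hp : IsStarProjection p) (hq : IsStarProjection q)
    (h2 : ((ε : ℂ) • (1 : Matrix (Fin n × Fin Λ) (Fin n × Fin Λ) ℂ) + (C : ℂ) • p -
            W u E (ι (toC (gam φ R)) * a * ι (toC (gam φ R))) Λ x).PosSemidef)
    (h3 : (W u E (ι (toC (gam φ R)) * b * ι (toC (gam φ R))) Λ x +
            (κ : ℂ) • (1 : Matrix (Fin n × Fin Λ) (Fin n × Fin Λ) ℂ) -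
            (δ : ℂ) • q).PosSemidef)
    (h4 : (p.rank : ℝ) + n * (((Finset.range Λ).filter
            fun i : ℕ => gam φ R (zt (i : ℤ) • x) ≠ 1).card : ℝ) + r * Λ ≤ q.rank) :
    ∃ Q : Matrix (Fin n × Fin Λ) (Fin n × Fin Λ) ℂ, (∀ k l, ‖Q k l‖ ≤ 2 / δ) ∧
        IsStarProjection (Q * W u E (beB ι φ R b κ) Λ x) ∧
        (W u E (alB ι φ R a ε) Λ x).rank + ⌈r * Λ⌉₊ ≤
          (Q * W u E (beB ι φ R b κ) Λ x).rank := by
  classical
  have s := splF hSPL hE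
  have hsp := ((hSPC X B n ι u e E hE).2 φ N L R hφ hR).2
  have hg : star (gB ι φ R) = gB ι φ R := gB_star φ R
  have ha2 : 0 ≤ gB ι φ R * a * gB ι φ R := conj_nonneg hg ha
  have hb2 : 0 ≤ gB ι φ R * b * gB ι φ R := conj_nonneg hg hb
  obtain ⟨ppa, -⟩ := hPPW hSPL X B n ι u e E hE (gB ι φ R * a * gB ι φ R) ε Λ x hε
    ha2.isSelfAdjoint (hsp a pa x h0) (hsp a pa _ h1)
  obtain ⟨ppb, -⟩ := hPPW hSPL X B n ι u e E hE (gB ι φ R * b * gB ι φ R) κ Λ x hκ.le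
    hb2.isSelfAdjoint (hsp b pb x h0) (hsp b pb _ h1)
  obtain ⟨-, pp2, pp3⟩ := hPP (Fin n × Fin Λ)
  have r1 : (W u E (cut ε (gB ι φ R * a * gB ι φ R)) Λ x).rank ≤ p.rank := by
    refine pp2 _ _ p C ppa hp ?_
    have e1 : (C : ℂ) • p - (W u E (gB ι φ R * a * gB ι φ R) Λ x -
        (ε : ℂ) • (1 : Matrix (Fin n × Fin Λ) (Fin n × Fin Λ) ℂ)) =
        (ε : ℂ) • (1 : Matrix (Fin n × Fin Λ) (Fin n × Fin Λ) ℂ) + (C : ℂ) • p -
          W u E (ι (toC (gam φ R)) * a * ι (toC (gam φ R))) Λ x := by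
      unfold gB
      abel
    rw [e1]
    exact h2
  have r2 : (Matrix.diagonal fun p : Fin n × Fin Λ =>
        ((((1 - gam φ R) * (1 - gam φ R)) (zt ((p.2 : ℕ) : ℤ) • x) : ℝ) : ℂ)).rank ≤
      n * ((Finset.range Λ).filter fun i : ℕ => gam φ R (zt (i : ℤ) • x) ≠ 1).card := by
    rw [Matrix.rank_diagonal]
    rw [Fintype.card_subtype]
    have hinj : Function.Injective (fun p : Fin n × Fin Λ => (p.1, (p.2 : ℕ))) := by
      intro p p' hpp
      simp only [Prod.mk.injEq] at hpp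
      exact Prod.ext hpp.1 (Fin.ext hpp.2)
    have hsub : (Finset.univ.filter fun p : Fin n × Fin Λ =>
        ((((1 - gam φ R) * (1 - gam φ R)) (zt ((p.2 : ℕ) : ℤ) • x) : ℝ) : ℂ) ≠ 0).image
          (fun p : Fin n × Fin Λ => (p.1, (p.2 : ℕ))) ⊆
        (Finset.univ : Finset (Fin n)) ×ˢ
          ((Finset.range Λ).filter fun i : ℕ => gam φ R (zt (i : ℤ) • x) ≠ 1) := by
      intro p' hp'
      rw [Finset.mem_image] at hp'
      obtain ⟨p0, hp0, rfl⟩ := hp'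
      rw [Finset.mem_filter] at hp0
      rw [Finset.mem_product, Finset.mem_filter, Finset.mem_range]
      refine ⟨Finset.mem_univ _, p0.2.2, fun hcon => hp0.2 ?_⟩
      simp only [ContinuousMap.mul_apply, ContinuousMap.sub_apply, ContinuousMap.one_apply]
      simp only at hcon
      rw [hcon]
      simp
    have h5 := Finset.card_le_card hsub
    rw [Finset.card_image_of_injective _ hinj, Finset.card_product, Finset.card_univ,
      Fintype.card_fin] at h5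
    exact h5
  have r3 : (W u E (alB ι φ R a ε) Λ x).rank ≤ p.rank + n * ((Finset.range Λ).filter
      fun i : ℕ => gam φ R (zt (i : ℤ) • x) ≠ 1).card := by
    rw [W_alB s]
    exact (matrix_rank_add_le _ _).trans (add_le_add r1 r2)
  obtain ⟨Q, hQ1, hQ2, hQ3⟩ := pp3 (W u E (gB ι φ R * b * gB ι φ R) Λ x)
    (W u E (cut κ (gB ι φ R * b * gB ι φ R)) Λ x) q δ κ hκ hδ
    (by
      have := s.Wstar x (gB ι φ R * b * gB ι φ R) Λ
      rw [hb2.isSelfAdjoint.star_eq] at this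
      exact this.symm) hq h3 ppb
  refine ⟨Q, hQ1, hQ2, ?_⟩
  have r4 : p.rank + n * ((Finset.range Λ).filter
      fun i : ℕ => gam φ R (zt (i : ℤ) • x) ≠ 1).card + ⌈r * Λ⌉₊ ≤ q.rank := by
    have h6 : r * Λ ≤ ((q.rank - (p.rank + n * ((Finset.range Λ).filter
      fun i : ℕ => gam φ R (zt (i : ℤ) • x) ≠ 1).card) : ℤ) : ℝ) := by
      push_cast
      linarith
    have h7 : (⌈r * Λ⌉₊ : ℤ) ≤ q.rank - (p.rank + n * ((Finset.range Λ).filter
      fun i : ℕ => gam φ R (zt (i : ℤ) • x) ≠ 1).card) := by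
      rw [Int.natCast_ceil_eq_ceil (mul_nonneg hr (Nat.cast_nonneg _))]
      exact Int.ceil_le.2 h6
    omega
  show (W u E (alB ι φ R a ε) Λ x).rank + ⌈r * Λ⌉₊ ≤ (Q * W u E (cut κ _) Λ x).rank
  omega

end

end

end Pool.Agent.H252.MD
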