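import Pool.Agent.H252.MD.Asm3

/-!
# Assembly, part 4: the core theorem
-/

set_option autoImplicit false
set_option linter.unusedSectionVars false

namespace Pool.Agent.H252.MD

open Filter Topology Matrix
open Pool.Agent.H107ZS Pool.Agent.H327R4.Pure
open scoped CStarAlgebra ComplexOrder

noncomputable section

theorem mdim_nonneg {X : Type} [TopologicalSpace X] [MulAction Zm X] [Nonempty X] {D : ℝ}
    (h : MdimLT X D) : 0 ≤ D := by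
  obtain ⟨n, hn, V, hV, -, hc⟩ := h {Set.univ} ⟨Set.finite_singleton _, by simp, by simp⟩ 1
  obtain ⟨x⟩ := ‹Nonempty X›
  have h1 := hc x
  obtain ⟨hf, ho, hu⟩ := hV
  have hx : x ∈ ⋃₀ V := by rw [hu]; trivial
  obtain ⟨s, hs, hxs⟩ := hx
  have h2 : 1 ≤ {s | s ∈ V ∧ x ∈ s}.ncard := by
    rw [Nat.one_le_iff_ne_zero]
    intro h0
    rw [Set.ncard_eq_zero (hf.subset fun s hs => hs.1)] at h0
    have : s ∈ {s | s ∈ V ∧ x ∈ s} := ⟨hs, hxs⟩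
    rw [h0] at this
    exact this
  have h3 : (1 : ℝ) ≤ ({s | s ∈ V ∧ x ∈ s}.ncard : ℝ) := by exact_mod_cast h2
  have h4 : 0 ≤ D * n := by linarith
  have h5 : (0 : ℝ) < n := by exact_mod_cast hn
  by_contra hneg
  push Not at hneg
  nlinarith [mul_neg_of_neg_of_pos hneg h5]

theorem gen_triv {X : Type} [TopologicalSpace X] [MulAction Zm X] {n : ℕ} (φ : C(X, ℝ))
    (A B : (Λ : ℕ) → X → Matrix (Fin n × Fin Λ) (Fin n × Fin Λ) ℂ) (Λ : ℕ)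
    (h : ¬ ∃ x, φ x = 1 ∧ φ (zt (Λ : ℤ) • x) = 1) : GenData φ A B Λ := by
  refine ⟨0, 1, 1, by norm_num, one_pos, fun x h0 h1 => absurd ⟨x, h0, h1⟩ h,
    fun ρ _ _ => ⟨∅, by simp, by simp, fun x h0 h1 => absurd ⟨x, h0, h1⟩ h⟩,
    fun x h0 h1 => absurd ⟨x, h0, h1⟩ h⟩

theorem numeric {D r : ℝ} (hD : 0 ≤ D) (h : D < 2 * r) (m : ℕ) : ∃ N₃ : ℕ, ∀ N Λ : ℕ, N₃ ≤ N →
    N < Λ → ⌊D * (Λ + 2 * m + 1 : ℕ)⌋₊ + ((Λ + 2 * m + 1 + N) / (N + 1)) < 2 * ⌈r * Λ⌉₊ := by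
  set s : ℝ := 2 * r - D with hs
  have hs0 : 0 < s := by rw [hs]; linarith
  obtain ⟨k1, hk1⟩ := exists_nat_gt (2 / s)
  obtain ⟨k2, hk2⟩ := exists_nat_gt (2 * (D * (2 * m + 1) + (s / 2) * (2 * m + 1) + 1) / s)
  refine ⟨max k1 k2, fun N Λ hN hΛ => ?_⟩
  have hN1 : (k1 : ℝ) ≤ N := by exact_mod_cast (le_max_left _ _).trans hN
  have hN2 : (k2 : ℝ) ≤ N := by exact_mod_cast (le_max_right _ _).trans hN
  have hΛ' : (N : ℝ) < Λ := by exact_mod_cast hΛ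
  have hNp : (0 : ℝ) < (N : ℝ) + 1 := by positivity
  have e1 : ((Λ + 2 * m + 1 + N) / (N + 1) : ℕ) ≤ ((Λ : ℝ) + 2 * m + 1) / (N + 1) + 1 := by
    refine (Nat.cast_div_le).trans ?_
    push_cast
    rw [div_le_iff₀ hNp, add_mul, div_mul_cancel₀ _ hNp.ne']
    linarith
  have e2 : ((Λ : ℝ) + 2 * m + 1) / (N + 1) ≤ (s / 2) * (Λ + 2 * m + 1) := by
    rw [div_le_iff₀ hNp]
    have h2 : 1 ≤ (s / 2) * (N + 1) := by
      have h3 : 2 / s < (N : ℝ) + 1 := by linarith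
      rw [div_lt_iff₀ hs0] at h3
      nlinarith
    have h4 : (0 : ℝ) ≤ (Λ : ℝ) + 2 * m + 1 := by positivity
    nlinarith
  have e3 : D * (2 * m + 1) + (s / 2) * (2 * m + 1) + 1 < (s / 2) * Λ := by
    have h3 : 2 * (D * (2 * m + 1) + (s / 2) * (2 * m + 1) + 1) / s < Λ := by linarith
    rw [div_lt_iff₀ hs0] at h3
    nlinarith
  have e4 : (⌊D * (Λ + 2 * m + 1 : ℕ)⌋₊ : ℝ) ≤ D * (Λ + 2 * m + 1) := by
    refine (Nat.floor_le (by positivity)).trans ?_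
    push_cast
    exact le_rfl
  have e5 : r * Λ ≤ ⌈r * Λ⌉₊ := Nat.le_ceil _
  have e6 : ((⌊D * (Λ + 2 * m + 1 : ℕ)⌋₊ + ((Λ + 2 * m + 1 + N) / (N + 1)) : ℕ) : ℝ) <
      ((2 * ⌈r * Λ⌉₊ : ℕ) : ℝ) := by
    push_cast
    push_cast at e1 e4
    calc (⌊D * ((Λ : ℝ) + 2 * m + 1)⌋₊ : ℝ) + (((Λ + 2 * m + 1 + N) / (N + 1) : ℕ) : ℝ)
        ≤ D * (Λ + 2 * m + 1) + (((s / 2) * (Λ + 2 * m + 1)) + 1) := by
          refine add_le_add e4 (e1.trans ?_)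
          linarith
      _ = D * Λ + (s / 2) * Λ + (D * (2 * m + 1) + (s / 2) * (2 * m + 1) + 1) := by ring
      _ < D * Λ + (s / 2) * Λ + (s / 2) * Λ := by linarith
      _ = 2 * (r * Λ) := by rw [hs]; ring
      _ ≤ 2 * ⌈r * Λ⌉₊ := by linarith
  exact_mod_cast e6

theorem core (hOMEGA : S_OMEGA) (hMD : S_MD) (hCOV : S_COV) (hGEN : S_GEN) (hIND : S_IND)
    (hPP : S_PP) (hCPT : S_CPT) (hSPL : S_SPL) (hSPC : S_SPC) (hPPW : S_PPW) (hPOSF : S_POSF)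
    (hBLK : S_BLK) (hVEL : S_VEL) (hAPP : S_APP) (hGAP : S_GAP) (hRG : S_RG)
    (hLIPW : S_LIPW) : S_CORE := by
  intro X _ _ _ _ _ _ B _ _ _ n ι u e E hE hF hM D₀ r hD₀ hlt a b ha hb hΛ
  have hD₀0 : 0 ≤ D₀ := mdim_nonneg hD₀
  have hr : 0 < r := by linarith
  set D : ℝ := (D₀ + 2 * r) / 2 with hDdef
  have hD1 : D₀ < D := by rw [hDdef]; linarith
  have hD2 : D < 2 * r := by rw [hDdef]; linarith
  have hD0 : 0 ≤ D := by linarith
  have hloc : LocApp X D := hMD X (hOMEGA X hM) D₀ D hD1 hD₀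
  refine clo' B a b ha fun ε' hε' => ?_
  set ε : ℝ := ε' / 3 with hε
  have hε0 : 0 < ε := by positivity
  have hεε : ε' = 3 * ε := by rw [hε]; ring
  obtain ⟨δ, γ, N₀, hδ, hγ, hgap⟩ := hGAP X B n ι u e E hE a b ε r ha hb hε0
    (fun Λ hinv => hΛ Λ hinv ε hε0)
  obtain ⟨κ, δ', C, hκ, hκδ, hκε, hC, hrg⟩ := hRG hSPC X B n ι u e E hE a b ε r δ γ N₀ ha hb
    hε0 hδ hγ hgap
  obtain ⟨a', b', R, ha', hb', pa, pb, na, nb, J, q, hq, n₀, C₁, hC₁, la, lb⟩ :=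
    hAPP X B n ι u e E hE D hloc a b κ ha hb hκ
  obtain ⟨N₁, hN₁⟩ := hrg a' b' R ha'.isSelfAdjoint hb'.isSelfAdjoint pa pb na nb
  obtain ⟨L₀, hL₀⟩ := hq.dens
  set m : ℕ := max n₀ R with hm
  obtain ⟨N₃, hN₃⟩ := numeric hD0 hD2 m
  set N : ℕ := max (max N₁ (2 * R)) (max L₀ N₃) with hN
  have hNN₁ : N₁ ≤ N := (le_max_left _ _).trans (le_max_left _ _)
  have hNR : 2 * R ≤ N := (le_max_right _ _).trans (le_max_left _ _)
  have hNL₀ : L₀ ≤ N := (le_max_left _ _).trans (le_max_right _ _)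
  have hNN₃ : N₃ ≤ N := (le_max_right _ _).trans (le_max_right _ _)
  obtain ⟨φ, L, hφ⟩ := hM N
  have hgen : ∀ Λ : ℕ, 1 ≤ Λ → Λ ≤ L → GenData φ (fun Λ => W u E (alB ι φ R a' ε) Λ)
      (fun Λ => W u E (beB ι φ R b' κ) Λ) Λ := by
    intro Λ h1 h2
    by_cases hex : ∃ x, φ x = 1 ∧ φ (zt (Λ : ℤ) • x) = 1
    · obtain ⟨x₀, hx₀, hx₁⟩ := hex
      have hlen : N < Λ := hφ.len (by omega) hx₀ hx₁
      refine gen_data hSPL hSPC hPPW hPP hLIPW hCOV hE hφ hNR hq.nonneg hq.le_one hC₁ ha' hb'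
        la lb pa pb hε0.le hκ.le Λ
        (⌊D * (Λ + 2 * m + 1 : ℕ)⌋₊ + ((Λ + 2 * m + 1 + N) / (N + 1))) ⌈r * Λ⌉₊ m
        (le_max_left _ _) (le_max_right _ _) (hN₃ N Λ hNN₃ hlen) ?_ (C₂ := 2 / δ') ?_
      · intro x
        have h3 := pw_count (q := q) hφ m (Λ + 2 * m + 1)
          (D := (⌊D * (Λ + 2 * m + 1 : ℕ)⌋₊ : ℝ)) (fun x => by
            have h4 := hL₀ (Λ + 2 * m + 1) (by omega) x
            exact_mod_cast Nat.le_floor h4) x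
        exact_mod_cast h3
      · intro x h0 h1'
        obtain ⟨p, q', hp, hq', h3, h4, h5⟩ := hN₁ N φ L hNN₁ hφ x Λ (by omega) h0 h1'
        exact rank_gap' hSPL hSPC hPPW hPP hE hφ hNR ha' hb' pa pb hε0.le hr.le hκ hκδ h0 h1'
          hp hq' h3 h4 h5
    · exact gen_triv φ _ _ Λ hex
  have s := splF hSPL hE
  have sα := alB_split (ι := ι) hSPL hSPC hPPW hE hφ hNR ha' pa hε0.le
  have sβ := beB_split (ι := ι) hSPL hSPC hPPW hE hφ hNR hb' pb hκ.le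
  obtain ⟨c, hc⟩ := hIND hGEN X n φ L _ _ (fun x => ⟨hφ.nonneg x, hφ.le_one x⟩)
    (s.dec φ _ sα) (s.dec φ _ sβ) hgen
  have hαβ : Cz (alB ι φ R a' ε) (beB ι φ R b' κ) :=
    final_cz hSPL hCPT hBLK hPOSF hVEL hE hF hφ (alB_nonneg φ R ha' ε) (beB_nonneg φ R hb' κ)
      sα sβ c hc
  obtain ⟨cc, hcc, hdom⟩ := dom_alpha (g := gB ι φ R) (G := GB ι φ R) ha' (gB_star φ R)
    (GB_star φ R) (gB_add φ R) na ha hκε hε0.le
  have h1 : Cz (cut ε' a) (alB ι φ R a' ε) := by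
    rw [hεε]
    exact cz_dom ha (alB_nonneg φ R ha' ε) hcc (by positivity) hdom
  have hgg : gB ι φ R * gB ι φ R ≤ 1 := by
    have e1 : gB ι φ R * gB ι φ R = ι (toC (gam φ R * gam φ R)) := by
      unfold gB
      rw [← map_mul]
      congr 1
      ext x
      simp [toC]
    rw [e1, ← map_one ι]
    rw [← sub_nonneg, ← map_sub]
    have hex : ∃ f : C(X, ℂ), 1 - toC (gam φ R * gam φ R) = star f * f := by
      refine ⟨toC ⟨fun x => Real.sqrt (1 - gam φ R x * gam φ R x), by fun_prop⟩, ?_⟩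
      ext x
      have h2 := (((hSPC X B n ι u e E hE).2 φ N L R hφ hNR).1 x)
      have h3 : 0 ≤ 1 - gam φ R x * gam φ R x := by nlinarith [h2.1, h2.2]
      rw [toC_star]
      simp only [toC, ContinuousMap.coe_mk, ContinuousMap.mul_apply, ContinuousMap.one_apply,
        ContinuousMap.sub_apply]
      rw [← Complex.ofReal_mul, Real.mul_self_sqrt h3]
      push_cast
      ring
    obtain ⟨f, hf⟩ := hex
    rw [hf, map_mul, map_star]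
    exact star_mul_self_nonneg _
  have h3 : Cz (beB ι φ R b' κ) b := cz_beta hb hb' (gB_star φ R) hgg nb hκ.le
  exact tra' _ _ _ _ h1 (tra' _ _ _ _ hαβ h3)

end

end Pool.Agent.H252.MD
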