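import Pool.Agent.H252.MD.Iface
import Pool.Graph.R_pool_sql_team_seeded_620a6dc7.H107_ZS.TDOM

/-!
# Cuntz comparison: the steps used in the assembly
-/

set_option autoImplicit false

namespace Pool.Agent.H252.MD

open Filter Topology
open Pool.Agent.H107ZS Pool.Agent.H327R4.Pure

noncomputable section

variable {B : Type} [CStarAlgebra B] [PartialOrder B] [StarOrderedRing B]

omit [PartialOrder B] [StarOrderedRing B] in
theorem cz_smul (b : B) {c : ℝ} (hc : 0 ≤ c) : Cz (c • b) b := by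
  refine ⟨fun _ => (Real.sqrt c) • (1 : B), ?_⟩
  have h1 : (Real.sqrt c • (1 : B)) * b * star (Real.sqrt c • (1 : B)) = c • b := by
    rw [star_smul, star_trivial, star_one, smul_mul_assoc, smul_mul_assoc, mul_smul_comm,
      smul_smul, Real.mul_self_sqrt hc, one_mul, mul_one]
  simp only [h1]
  exact tendsto_const_nhds

omit [PartialOrder B] [StarOrderedRing B] in
theorem cz_conj (x b : B) : Cz (x * b * star x) b :=
  ⟨fun _ => x, tendsto_const_nhds⟩

/-- if `a ≤ ε + c α` then `(a-ε)₊ ≾ α` -/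
theorem cz_dom {a α : B} {c ε : ℝ} (ha : 0 ≤ a) (hα : 0 ≤ α) (hc : 0 ≤ c) (hε : 0 ≤ ε)
    (h : a ≤ algebraMap ℝ B ε + c • α) : Cz (cut ε a) α :=
  tra' _ _ _ _ (t_DOM B a (c • α) ε ha (smul_nonneg hc hα) hε h) (cz_smul α hc)

/-- from the operator inequalities to Cuntz comparison -/
theorem cz_of_ineq {α β v : B} (hα : 0 ≤ α) (hβ : 0 ≤ β)
    (h : ∀ θ : ℝ, 0 < θ → ∃ C : ℝ, 0 ≤ C ∧
      α * α ≤ algebraMap ℝ B θ + C • (α * star v * β * v * α)) : Cz α β := by
  have hs : star α = α := hα.isSelfAdjoint.star_eq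
  have h2 : 0 ≤ α * α := by
    have := star_mul_self_nonneg α
    rwa [hs] at this
  refine tra' _ _ _ _ (KRx.sq_below α hα) (clo' B (α * α) β h2 fun θ hθ => ?_)
  obtain ⟨C, hC, hle⟩ := h θ hθ
  have e1 : α * star v * β * v * α = (α * star v) * β * star (α * star v) := by
    rw [star_mul, star_star, hs]; simp only [mul_assoc]
  have h3 : 0 ≤ α * star v * β * v * α := by
    rw [e1]
    exact star_right_conjugate_nonneg hβ _
  refine tra' _ _ _ _ (cz_dom h2 h3 hC hθ.le hle) ?_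
  rw [e1]
  exact cz_conj _ _

/-- `a ≤ 2 g a g + 2 G a G` for `g + G = 1` -/
theorem cut_two {a g G : B} (ha : 0 ≤ a) (hg : star g = g) (hG : star G = G) (h1 : g + G = 1) :
    a ≤ (2 : ℝ) • (g * a * g) + (2 : ℝ) • (G * a * G) := by
  have h0 : 0 ≤ (g - G) * a * star (g - G) := star_right_conjugate_nonneg ha _
  have e0 : star (g - G) = g - G := by rw [star_sub, hg, hG]
  rw [e0] at h0
  have e1 : (2 : ℝ) • (g * a * g) + (2 : ℝ) • (G * a * G) - a = (g - G) * a * (g - G) := by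
    have : a = (g + G) * a * (g + G) := by rw [h1, one_mul, mul_one]
    conv_lhs => rw [this]
    rw [two_smul, two_smul]
    have hh : (g + G) * ((g + G) * a * (g + G)) * (g + G) = (g + G) * a * (g + G) := by
      rw [h1]; simp
    have k1 : g * ((g + G) * a * (g + G)) * g = g * a * g := by rw [h1]; simp
    have k2 : G * ((g + G) * a * (g + G)) * G = G * a * G := by rw [h1]; simp
    rw [k1, k2]
    noncomm_ring
  rw [← sub_nonneg, e1]
  exact h0

/-- the element `a` is dominated by `(g a' g - ε)₊ + G²` -/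
theorem dom_alpha {a a' g G : B} {κ ε : ℝ} (ha' : 0 ≤ a') (hg : star g = g) (hG : star G = G)
    (h1 : g + G = 1) (hn : ‖a - a'‖ ≤ κ) (ha : 0 ≤ a) (hκ : κ ≤ ε) (hε : 0 ≤ ε) :
    ∃ c : ℝ, 0 ≤ c ∧ a ≤ algebraMap ℝ B (3 * ε) + c • (cut ε (g * a' * g) + G * G) := by
  have hsa : IsSelfAdjoint (a - a') := ha.isSelfAdjoint.sub ha'.isSelfAdjoint
  have s1 : a ≤ a' + algebraMap ℝ B ε := by
    have h2 := hsa.le_algebraMap_norm_self
    have h3 : algebraMap ℝ B ‖a - a'‖ ≤ algebraMap ℝ B ε := by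
      rw [← sub_nonneg, ← map_sub]
      exact algebraMap_nonneg B (sub_nonneg.2 (hn.trans hκ))
    have h4 := h2.trans h3
    have := add_le_add_left h4 a'
    simpa [sub_add_cancel, add_comm] using this
  have s2 := cut_two ha' hg hG h1
  have s3 : G * a' * G ≤ ‖a'‖ • (G * G) := by
    have h2 : a' ≤ algebraMap ℝ B ‖a'‖ := ha'.isSelfAdjoint.le_algebraMap_norm_self
    have h3 := star_right_conjugate_le_conjugate h2 G
    rwa [hG, Algebra.algebraMap_eq_smul_one, mul_smul_comm, mul_one, smul_mul_assoc] at h3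
  have s4 : g * a' * g ≤ cut ε (g * a' * g) + algebraMap ℝ B ε := by
    have hp : 0 ≤ g * a' * g := by
      have := star_right_conjugate_nonneg ha' g
      rwa [hg] at this
    have h2 := (ct' B (g * a' * g) hp).2.2.2.2.2.1 ε hε
    have h3 : IsSelfAdjoint (g * a' * g - cut ε (g * a' * g)) :=
      hp.isSelfAdjoint.sub ((ct' B (g * a' * g) hp).1 ε).isSelfAdjoint
    have h4 := h3.le_algebraMap_norm_self
    have h5 : algebraMap ℝ B ‖g * a' * g - cut ε (g * a' * g)‖ ≤ algebraMap ℝ B ε := by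
      rw [← sub_nonneg, ← map_sub]
      exact algebraMap_nonneg B (sub_nonneg.2 h2)
    have := add_le_add_left (h4.trans h5) (cut ε (g * a' * g))
    simpa [sub_add_cancel, add_comm] using this
  have hcut : 0 ≤ cut ε (g * a' * g) := by
    have hp : 0 ≤ g * a' * g := by
      have := star_right_conjugate_nonneg ha' g
      rwa [hg] at this
    exact (ct' B (g * a' * g) hp).1 ε
  have hGG : 0 ≤ G * G := by
    have := star_mul_self_nonneg G
    rwa [hG] at this
  refine ⟨max 2 (2 * ‖a'‖), by positivity, ?_⟩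
  set c : ℝ := max 2 (2 * ‖a'‖) with hc
  have h2c : (2 : ℝ) ≤ c := le_max_left _ _
  have h2c' : 2 * ‖a'‖ ≤ c := le_max_right _ _
  have t1 : (2 : ℝ) • cut ε (g * a' * g) ≤ c • cut ε (g * a' * g) :=
    smul_le_smul_of_nonneg_right h2c hcut
  have t2 : (2 * ‖a'‖) • (G * G) ≤ c • (G * G) := smul_le_smul_of_nonneg_right h2c' hGG
  calc a ≤ a' + algebraMap ℝ B ε := s1
    _ ≤ ((2 : ℝ) • (g * a' * g) + (2 : ℝ) • (G * a' * G)) + algebraMap ℝ B ε := by gcongr
    _ ≤ ((2 : ℝ) • (cut ε (g * a' * g) + algebraMap ℝ B ε) + (2 : ℝ) • (‖a'‖ • (G * G))) +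
        algebraMap ℝ B ε := by gcongr
    _ = algebraMap ℝ B (3 * ε) + ((2 : ℝ) • cut ε (g * a' * g) + (2 * ‖a'‖) • (G * G)) := by
        rw [smul_add, smul_smul, Algebra.algebraMap_eq_smul_one, Algebra.algebraMap_eq_smul_one,
          smul_smul]
        have : (3 * ε) • (1 : B) = (2 * ε) • (1 : B) + ε • (1 : B) := by
          rw [← add_smul]; ring_nf
        rw [this]
        abel
    _ ≤ algebraMap ℝ B (3 * ε) + c • (cut ε (g * a' * g) + G * G) := by
        rw [smul_add]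
        gcongr

/-- `(g b' g - κ)₊ ≾ b` if `‖b - b'‖ ≤ κ` -/
theorem cz_beta {b b' g : B} {κ : ℝ} (hb : 0 ≤ b) (hb' : 0 ≤ b') (hg : star g = g)
    (hg1 : g * g ≤ 1) (hn : ‖b - b'‖ ≤ κ) (hκ : 0 ≤ κ) : Cz (cut κ (g * b' * g)) b := by
  have hsa : IsSelfAdjoint (b' - b) := hb'.isSelfAdjoint.sub hb.isSelfAdjoint
  have s1 : b' - b ≤ algebraMap ℝ B κ := by
    refine hsa.le_algebraMap_norm_self.trans ?_
    rw [← sub_nonneg, ← map_sub]
    refine algebraMap_nonneg B (sub_nonneg.2 ?_)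
    rw [norm_sub_rev]; exact hn
  have s2 := star_right_conjugate_le_conjugate s1 g
  rw [hg, Algebra.algebraMap_eq_smul_one, mul_smul_comm, mul_one, smul_mul_assoc, mul_sub,
    sub_mul] at s2
  have s3 : κ • (g * g) ≤ algebraMap ℝ B κ := by
    rw [Algebra.algebraMap_eq_smul_one]
    exact smul_le_smul_of_nonneg_left hg1 hκ
  have s4 : g * b' * g ≤ algebraMap ℝ B κ + (1 : ℝ) • (g * b * g) := by
    rw [one_smul]
    exact sub_le_iff_le_add.1 (s2.trans s3)
  have hp : 0 ≤ g * b' * g := by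
    have := star_right_conjugate_nonneg hb' g
    rwa [hg] at this
  have hp2 : 0 ≤ g * b * g := by
    have := star_right_conjugate_nonneg hb g
    rwa [hg] at this
  have s5 := cz_dom hp hp2 zero_le_one hκ s4
  refine tra' _ _ _ _ s5 ?_
  have := cz_conj g b
  rwa [hg] at this

end

end Pool.Agent.H252.MD
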